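import Mathlib
import Pool.Agent.Helper23.Ric.Bridge

/-! Definitions for project SL (slices of metrics on `S² × N`). -/

set_option maxSynthPendingDepth 3
set_option linter.unusedSectionVars false
set_option linter.deprecated false

namespace Pool.Agent.Helper65.SL

open Filter Topology
open scoped ContDiff Manifold
open Pool.Agent.Helper23.Ric

variable {V W : Type*} [NormedAddCommGroup V] [NormedSpace ℝ V] [FiniteDimensional ℝ V]
  [NormedAddCommGroup W] [NormedSpace ℝ W] [FiniteDimensional ℝ W]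

/-- A metric on `V × W` for which `V ⊥ W` near the point `(w₀, z₀)`; both blocks may depend on
both variables. -/
structure SplitAt (G : V × W → (V × W) →L[ℝ] (V × W) →L[ℝ] ℝ) (w₀ : V) (z₀ : W) : Prop where
  good : GoodAt G (w₀, z₀)
  mixed : ∀ᶠ p in 𝓝 (w₀, z₀), ∀ (u : V) (v : W), G p (u, 0) (0, v) = 0

/-- `∂_u G(v,v')` at `(w₀,z₀)`, `u ∈ V`, `v, v' ∈ W`. -/
noncomputable def dW (G : V × W → (V × W) →L[ℝ] (V × W) →L[ℝ] ℝ) (w₀ : V) (z₀ : W)
    (u : V) (v v' : W) : ℝ :=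
  fderiv ℝ G (w₀, z₀) (u, 0) (0, v) (0, v')

/-- `∂_u ∂_u' G(v,v')` at `(w₀,z₀)`, `u, u' ∈ V`, `v, v' ∈ W`. -/
noncomputable def ddW (G : V × W → (V × W) →L[ℝ] (V × W) →L[ℝ] ℝ) (w₀ : V) (z₀ : W)
    (u u' : V) (v v' : W) : ℝ :=
  fderiv ℝ (fderiv ℝ G) (w₀, z₀) (u, 0) (u', 0) (0, v) (0, v')

/-- the metric `G` in the coordinates given by `ψ` -/
noncomputable def pull {E : Type*} [NormedAddCommGroup E] [NormedSpace ℝ E] (ψ : E → E)
    (G : E → E →L[ℝ] E →L[ℝ] ℝ) (y : E) : E →L[ℝ] E →L[ℝ] ℝ :=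
  (G (ψ y)).bilinearComp (fderiv ℝ ψ y) (fderiv ℝ ψ y)

/-- the sum over the frame `e` of `Ric - 2 (m-1) Hess θ - (m-1) (m-2) dθ ⊗ dθ`; up to the factor
`exp (-2 θ)` this is the scalar curvature of `exp (2 θ) G` if `e` is an orthonormal basis -/
noncomputable def pf {E : Type*} [NormedAddCommGroup E] [NormedSpace ℝ E] [FiniteDimensional ℝ E]
    (m : ℕ) (θ : E → ℝ) (G : E → E →L[ℝ] E →L[ℝ] ℝ) (z : E) (e : Fin m → E) : ℝ :=
  ∑ i, (ricci G z (e i) (e i) - 2 * ((m : ℝ) - 1) * hess θ G z (e i) (e i)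
    - ((m : ℝ) - 1) * ((m : ℝ) - 2) * (fderiv ℝ θ z (e i)) ^ 2)

end Pool.Agent.Helper65.SL
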