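import Mathlib
import Pool.Agent.Helper65.SL.Defs

/-! Christoffel symbols of a metric on `V × W` with `V ⊥ W`. -/

set_option maxSynthPendingDepth 3
set_option linter.unusedSectionVars false
set_option linter.deprecated false

namespace Pool.Agent.Helper65.SL

open Filter Topology
open scoped ContDiff
open Pool.Agent.Helper23.Ric

variable {V W : Type*} [NormedAddCommGroup V] [NormedSpace ℝ V] [FiniteDimensional ℝ V]
  [NormedAddCommGroup W] [NormedSpace ℝ W] [FiniteDimensional ℝ W]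

variable {G : V × W → (V × W) →L[ℝ] (V × W) →L[ℝ] ℝ} {w₀ : V} {z₀ : W}

theorem SplitAt.eventually (h : SplitAt G w₀ z₀) : ∀ᶠ p in 𝓝 (w₀, z₀), SplitAt G p.1 p.2 := by
  filter_upwards [h.good.eventually, h.mixed.eventually_nhds] with p a b
  exact ⟨a, b⟩

theorem SplitAt.goodW (h : SplitAt G w₀ z₀) : GoodAt (blockW G w₀) z₀ := by
  refine ⟨contDiffAt_block _ h.good.smooth, ?_, ?_⟩
  · filter_upwards [(tendsto_slice w₀ z₀).eventually h.good.symm] with z hz v w
    exact hz _ _
  · filter_upwards [(tendsto_slice w₀ z₀).eventually h.good.pos] with z hz v hv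
    exact hz _ (by simpa using hv)

theorem SplitAt.goodV (h : SplitAt G w₀ z₀) : ContDiffAt ℝ 2 (blockV G w₀) z₀ ∧
    (∀ᶠ z in 𝓝 z₀, ∀ v w, blockV G w₀ z v w = blockV G w₀ z w v) ∧
    (∀ᶠ z in 𝓝 z₀, ∀ v, v ≠ 0 → 0 < blockV G w₀ z v v) := by
  refine ⟨contDiffAt_block _ h.good.smooth, ?_, ?_⟩
  · filter_upwards [(tendsto_slice w₀ z₀).eventually h.good.symm] with z hz v w
    exact hz _ _
  · filter_upwards [(tendsto_slice w₀ z₀).eventually h.good.pos] with z hz v hv
    exact hz _ (by simpa using hv)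

theorem SplitAt.fderiv_mixed (h : SplitAt G w₀ z₀) (x : V × W) (u : V) (v : W) :
    fderiv ℝ G (w₀, z₀) x (u, 0) (0, v) = 0 := by
  have h1 : (fun q => G q (u, 0) (0, v)) =ᶠ[𝓝 (w₀, z₀)] fun _ => (0 : ℝ) := by
    filter_upwards [h.mixed] with q hq
    exact hq u v
  have := fderiv_of_eventuallyEq (differentiableAt_of_good h.good) h1 (hasFDerivAt_const _ _) x
  simpa using this

/-- the derivative of the `W`-block in the direction `W` -/
theorem SplitAt.fderiv_W (h : SplitAt G w₀ z₀) (y v v' : W) :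
    fderiv ℝ G (w₀, z₀) (0, y) (0, v) (0, v') = fderiv ℝ (blockW G w₀) z₀ y v v' := by
  have hd : DifferentiableAt ℝ G (w₀, z₀) := differentiableAt_of_good h.good
  have h1 : HasFDerivAt (fun z : W => G (w₀, z)) ((fderiv ℝ G (w₀, z₀)).comp
      (ContinuousLinearMap.inr ℝ V W)) z₀ :=
    hd.hasFDerivAt.comp z₀ (hasFDerivAt_prodMk_right w₀ z₀)
  have h2 : HasFDerivAt (fun z : W => G (w₀, z) (0, v) (0, v'))
      (((((fderiv ℝ G (w₀, z₀)).comp (ContinuousLinearMap.inr ℝ V W)).flip (0, v)).flip (0, v'))) z₀ := by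
    have h3 := (h1.clm_apply (hasFDerivAt_const (0, v) z₀)).clm_apply
      (hasFDerivAt_const (0, v') z₀)
    refine h3.congr_fderiv ?_
    ext x
    simp
  have h4 := hasFDerivAt_apply2 h.goodW v v'
  have h5 := congrArg (fun L => L y) (h2.unique h4)
  simpa using h5

/-- the metric with the `W`-block frozen at `w₀` -/
noncomputable def freeze (G : V × W → (V × W) →L[ℝ] (V × W) →L[ℝ] ℝ) (w₀ : V) (p : V × W) :
    (V × W) →L[ℝ] (V × W) →L[ℝ] ℝ :=
  ((G p).bilinearComp ((ContinuousLinearMap.inl ℝ V W).comp (ContinuousLinearMap.fst ℝ V W))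
    ((ContinuousLinearMap.inl ℝ V W).comp (ContinuousLinearMap.fst ℝ V W))) +
  ((G (w₀, p.2)).bilinearComp ((ContinuousLinearMap.inr ℝ V W).comp (ContinuousLinearMap.snd ℝ V W))
    ((ContinuousLinearMap.inr ℝ V W).comp (ContinuousLinearMap.snd ℝ V W)))

theorem freeze_apply (p a b : V × W) : freeze G w₀ p a b =
    G p (a.1, 0) (b.1, 0) + G (w₀, p.2) (0, a.2) (0, b.2) := rfl

theorem form_zero (p : V × W) (a : V × W) : G p ((0 : V), (0 : W)) a = 0 := by
  have : ((0 : V), (0 : W)) = 0 := rfl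
  rw [this, map_zero, ContinuousLinearMap.zero_apply]

theorem blockV_freeze : blockV (freeze G w₀) w₀ = blockV G w₀ := by
  funext z
  ext u u'
  rw [blockV_apply, freeze_apply]
  simp [blockV_apply, form_zero]

theorem blockW_freeze : blockW (freeze G w₀) w₀ = blockW G w₀ := by
  funext z
  ext u u'
  rw [blockW_apply, freeze_apply]
  simp [blockW_apply, form_zero]

theorem ell_freeze : ell (freeze G w₀) w₀ = ell G w₀ := by
  funext z v
  rw [ell, ell, blockV_freeze]

theorem contDiffAt_bilin {X D : Type*} [NormedAddCommGroup X] [NormedSpace ℝ X]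
    [NormedAddCommGroup D] [NormedSpace ℝ D] {n : WithTop ℕ∞}
    {F : D → X →L[ℝ] X →L[ℝ] ℝ} {d : D} (L : X →L[ℝ] X) (hF : ContDiffAt ℝ n F d) :
    ContDiffAt ℝ n (fun p => (F p).bilinearComp L L) d := by
  have h2 : ContDiffAt ℝ n (fun z => (F z).comp L) d := hF.clm_comp contDiffAt_const
  have h3 : ContDiffAt ℝ n (fun z => ((F z).comp L).flip) d :=
    (ContinuousLinearMap.flipₗᵢ ℝ X X ℝ).contDiff.contDiffAt.comp d h2
  have h4 : ContDiffAt ℝ n (fun z => (((F z).comp L).flip).comp L) d :=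
    h3.clm_comp contDiffAt_const
  exact (ContinuousLinearMap.flipₗᵢ ℝ X X ℝ).contDiff.contDiffAt.comp d h4

theorem SplitAt.freeze (h : SplitAt G w₀ z₀) : BlockAt (freeze G w₀) w₀ z₀ := by
  have hsl : Tendsto (fun p : V × W => (w₀, p.2)) (𝓝 (w₀, z₀)) (𝓝 (w₀, z₀)) :=
    (continuous_const.prodMk continuous_snd).tendsto _
  refine ⟨⟨?_, ?_, ?_⟩, ?_, ?_⟩
  · refine ContDiffAt.add (contDiffAt_bilin _ h.good.smooth) (contDiffAt_bilin _ ?_)
    have hg : ContDiffAt ℝ 2 (fun p : V × W => (w₀, p.2)) (w₀, z₀) :=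
      contDiffAt_const.prodMk contDiffAt_snd
    exact ContDiffAt.comp (w₀, z₀) (g := G) (f := fun p : V × W => (w₀, p.2)) h.good.smooth hg
  · filter_upwards [h.good.symm, hsl.eventually h.good.symm] with p hp hp' v w
    rw [freeze_apply, freeze_apply, hp, hp']
  · filter_upwards [h.good.pos, hsl.eventually h.good.pos] with p hp hp' v hv
    rw [freeze_apply]
    by_cases h1 : v.1 = 0
    · have h2 : v.2 ≠ 0 := fun h2 => hv (Prod.ext h1 h2)
      have h3 := hp' (0, v.2) (fun h0 => h2 (Prod.mk.inj h0).2)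
      rw [h1]
      have h4 : G p ((0 : V), (0 : W)) ((0 : V), (0 : W)) = 0 := by
        have : ((0 : V), (0 : W)) = 0 := rfl
        rw [this]; simp
      rw [h4, zero_add]
      exact h3
    · have h3 := hp (v.1, 0) (fun h0 => h1 (Prod.mk.inj h0).1)
      by_cases h2 : v.2 = 0
      · rw [h2]
        have h4 : G (w₀, p.2) ((0 : V), (0 : W)) ((0 : V), (0 : W)) = 0 := by
          have : ((0 : V), (0 : W)) = 0 := rfl
          rw [this]; simp
        rw [h4, add_zero]
        exact h3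
      · exact add_pos h3 (hp' (0, v.2) (fun h0 => h2 (Prod.mk.inj h0).2))
  · filter_upwards with p u v
    rw [freeze_apply]
    have : ((0 : V), (0 : W)) = 0 := rfl
    simp [this]
  · filter_upwards with p v v'
    rw [freeze_apply, blockW_apply, freeze_apply]
    have : ((0 : V), (0 : W)) = 0 := rfl
    simp [this]

theorem SplitAt.ell_spec (h : SplitAt G w₀ z₀) (v : W) (u u' : V) :
    blockV G w₀ z₀ (ell G w₀ z₀ v u) u' = fderiv ℝ (blockV G w₀) z₀ v u u' / 2 := by
  have := h.freeze.ell_spec v u u'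
  rwa [blockV_freeze, ell_freeze] at this

theorem SplitAt.differentiableAt_ell (h : SplitAt G w₀ z₀) (v : W) :
    DifferentiableAt ℝ (fun z => ell G w₀ z v) z₀ := by
  have := h.freeze.differentiableAt_ell v
  rwa [ell_freeze] at this

theorem SplitAt.apply (h : SplitAt G w₀ z₀) (a b : V × W) :
    G (w₀, z₀) a b = blockV G w₀ z₀ a.1 b.1 + blockW G w₀ z₀ a.2 b.2 := by
  have hm := h.mixed.self_of_nhds
  have hs := h.good.symm.self_of_nhds
  conv_lhs => rw [split a, split b]
  simp only [map_add, ContinuousLinearMap.add_apply, hm, hs (0, a.2) (b.1, 0)]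
  rw [blockV_apply, blockW_apply]
  ring

/-- the `V`-component of the `(0,v),(0,v')` Christoffel symbols -/
theorem SplitAt.chris_WW_V (h : SplitAt G w₀ z₀) (v v' : W) (u : V) :
    blockV G w₀ z₀ (chris G (w₀, z₀) (0, v) (0, v')).1 u = - (dW G w₀ z₀ u v v') / 2 := by
  have h1 := chris_spec h.good (0, v) (0, v') (u, 0)
  rw [h.apply] at h1
  have e1 : fderiv ℝ G (w₀, z₀) (0, v) (0, v') (u, 0) = 0 := by
    rw [fderiv_symm h.good, h.fderiv_mixed]
  have e2 : fderiv ℝ G (w₀, z₀) (0, v') (0, v) (u, 0) = 0 := by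
    rw [fderiv_symm h.good, h.fderiv_mixed]
  rw [e1, e2] at h1
  simp only [map_zero, add_zero, zero_add, zero_sub] at h1
  exact h1

/-- the `W`-component of the `(0,v),(0,v')` Christoffel symbols -/
theorem SplitAt.chris_WW_W (h : SplitAt G w₀ z₀) (v v' : W) :
    (chris G (w₀, z₀) (0, v) (0, v')).2 = chris (blockW G w₀) z₀ v v' := by
  apply chris_unique h.goodW
  intro x
  have h1 := chris_spec h.good (0, v) (0, v') (0, x)
  rw [h.apply] at h1
  simp only [map_zero, zero_add] at h1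
  rw [h1, h.fderiv_W, h.fderiv_W, h.fderiv_W]

/-- the `V`-component of the `(u,0),(0,v)` Christoffel symbols -/
theorem SplitAt.chris_VW_V (h : SplitAt G w₀ z₀) (u : V) (v : W) :
    (chris G (w₀, z₀) (u, 0) (0, v)).1 = ell G w₀ z₀ v u := by
  apply eq_of_form h.goodV.2.2.self_of_nhds
  intro x
  rw [h.ell_spec]
  have h1 := chris_spec h.good (u, 0) (0, v) (x, 0)
  rw [h.apply] at h1
  have e1 : fderiv ℝ G (w₀, z₀) (u, 0) (0, v) (x, 0) = 0 := by
    rw [fderiv_symm h.good, h.fderiv_mixed]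
  have e2 : fderiv ℝ G (w₀, z₀) (0, v) (u, 0) (x, 0) = fderiv ℝ (blockV G w₀) z₀ v u x :=
    fderiv_V h.good.smooth (by norm_num) v u x
  rw [e1, e2, h.fderiv_mixed] at h1
  simp only [map_zero, add_zero, zero_add, sub_zero] at h1
  exact h1

/-- the `W`-component of the `(u,0),(0,v)` Christoffel symbols -/
theorem SplitAt.chris_VW_W (h : SplitAt G w₀ z₀) (u : V) (v v' : W) :
    blockW G w₀ z₀ (chris G (w₀, z₀) (u, 0) (0, v)).2 v' = dW G w₀ z₀ u v v' / 2 := by
  have h1 := chris_spec h.good (u, 0) (0, v) (0, v')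
  rw [h.apply] at h1
  have e1 : fderiv ℝ G (w₀, z₀) (0, v) (u, 0) (0, v') = 0 := h.fderiv_mixed _ _ _
  have e2 : fderiv ℝ G (w₀, z₀) (0, v') (u, 0) (0, v) = 0 := h.fderiv_mixed _ _ _
  rw [e1, e2] at h1
  simp only [map_zero, add_zero, zero_add, sub_zero] at h1
  exact h1

end Pool.Agent.Helper65.SL
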