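import Pool.Agent.Helper53.SL.St

/-!
# MP_9062f4_nt, project SL, module FOU: the Fourier coefficients of `log |G|`

`hFou' : StFou` (with Mathlib only) and `hFou (h1 : StMem) : StFou` (the form of the assembly).
-/

set_option autoImplicit false

open Polynomial Filter Topology MeasureTheory Set

noncomputable section

namespace Pool.Agent.Helper65.SL

open Pool.Agent.Helper53.SL

/-! ## The trigonometric integrals -/

/-- `∫ cos (k t) = 0` for an integer `k ≠ 0`. -/
lemma int_cos_int (k : ℤ) (hk : k ≠ 0) :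
    ∫ t in (0 : ℝ)..2 * Real.pi, Real.cos (k * t) = 0 := by
  have hk' : (k : ℝ) ≠ 0 := by exact_mod_cast hk
  rw [intervalIntegral.integral_comp_mul_left (fun t => Real.cos t) hk', integral_cos]
  have h1 : Real.sin ((k : ℝ) * (2 * Real.pi)) = 0 := by
    have := Real.sin_int_mul_pi (2 * k)
    rw [← this]
    congr 1
    push_cast
    ring
  rw [h1]
  simp

/-- `∫ sin (k t) = 0` for an integer `k`. -/
lemma int_sin_int (k : ℤ) :
    ∫ t in (0 : ℝ)..2 * Real.pi, Real.sin (k * t) = 0 := by
  rcases eq_or_ne k 0 with rfl | hk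
  · simp
  have hk' : (k : ℝ) ≠ 0 := by exact_mod_cast hk
  rw [intervalIntegral.integral_comp_mul_left (fun t => Real.sin t) hk', integral_sin]
  have h1 : Real.cos ((k : ℝ) * (2 * Real.pi)) = 1 := Real.cos_int_mul_two_pi k
  rw [h1]
  simp

lemma int_cos_nat (n : ℕ) (hn : 1 ≤ n) :
    ∫ t in (0 : ℝ)..2 * Real.pi, Real.cos (n * t) = 0 := by
  have := int_cos_int (n : ℤ) (by exact_mod_cast (by omega : n ≠ 0))
  simpa using this

/-- `∫ cos (m t) cos (n t)`. -/
lemma int_cos_cos (m n : ℕ) (hn : 1 ≤ n) :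
    ∫ t in (0 : ℝ)..2 * Real.pi, Real.cos (m * t) * Real.cos (n * t) =
      if m = n then Real.pi else 0 := by
  have h0 : ∀ t : ℝ, Real.cos (m * t) * Real.cos (n * t) =
      (1 / 2) * Real.cos (((m : ℤ) - (n : ℤ) : ℤ) * t) +
        (1 / 2) * Real.cos (((m : ℤ) + (n : ℤ) : ℤ) * t) := by
    intro t
    push_cast
    rw [sub_mul, add_mul, Real.cos_sub, Real.cos_add]
    ring
  have hc : ∀ k : ℤ, IntervalIntegrable (fun t : ℝ => (1 / 2) * Real.cos ((k : ℝ) * t)) volume
      0 (2 * Real.pi) := fun k => by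
    apply Continuous.intervalIntegrable
    fun_prop
  rw [intervalIntegral.integral_congr (fun t _ => h0 t),
    intervalIntegral.integral_add (hc _) (hc _), intervalIntegral.integral_const_mul,
    intervalIntegral.integral_const_mul]
  rw [int_cos_int ((m : ℤ) + (n : ℤ)) (by omega)]
  split_ifs with h
  · subst h
    simp
  · rw [int_cos_int ((m : ℤ) - (n : ℤ)) (by omega)]
    ring

/-- `∫ sin (m t) cos (n t)`. -/
lemma int_sin_cos (m n : ℕ) :
    ∫ t in (0 : ℝ)..2 * Real.pi, Real.sin (m * t) * Real.cos (n * t) = 0 := by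
  have h0 : ∀ t : ℝ, Real.sin (m * t) * Real.cos (n * t) =
      (1 / 2) * Real.sin (((m : ℤ) - (n : ℤ) : ℤ) * t) +
        (1 / 2) * Real.sin (((m : ℤ) + (n : ℤ) : ℤ) * t) := by
    intro t
    push_cast
    rw [sub_mul, add_mul, Real.sin_sub, Real.sin_add]
    ring
  have hc : ∀ k : ℤ, IntervalIntegrable (fun t : ℝ => (1 / 2) * Real.sin ((k : ℝ) * t)) volume
      0 (2 * Real.pi) := fun k => by
    apply Continuous.intervalIntegrable
    fun_prop
  rw [intervalIntegral.integral_congr (fun t _ => h0 t),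
    intervalIntegral.integral_add (hc _) (hc _), intervalIntegral.integral_const_mul,
    intervalIntegral.integral_const_mul, int_sin_int, int_sin_int]
  ring

/-! ## Basic facts on the circle -/

lemma nz (t : ℝ) : ‖circleMap 0 1 t‖ = 1 := by
  rw [norm_circleMap_zero]
  simp

/-- `‖z - α‖ = ‖1 - α z⁻¹‖` on the unit circle. -/
lemma norm_sub_eq (α : ℂ) (t : ℝ) :
    ‖circleMap 0 1 t - α‖ = ‖1 - α * Complex.exp (-(t * Complex.I))‖ := by
  have h1 : circleMap 0 1 t = Complex.exp (t * Complex.I) := by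
    rw [circleMap_zero]
    simp
  have h2 : circleMap 0 1 t - α =
      circleMap 0 1 t * (1 - α * Complex.exp (-(t * Complex.I))) := by
    rw [h1, Complex.exp_neg]
    field_simp
  rw [h2, norm_mul, nz, one_mul]

lemma norm_w (α : ℂ) (t : ℝ) : ‖α * Complex.exp (-(t * Complex.I))‖ = ‖α‖ := by
  have h : -(t * Complex.I) = ((-t : ℝ) : ℂ) * Complex.I := by
    push_cast
    ring
  rw [norm_mul, h, Complex.norm_exp_ofReal_mul_I, mul_one]

/-- the real part of `(α e^(-it))^m / m` -/
lemma re_pow_div (α : ℂ) (t : ℝ) (m : ℕ) :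
    ((α * Complex.exp (-(t * Complex.I))) ^ m / m).re =
      ((α ^ m).re * Real.cos (m * t) + (α ^ m).im * Real.sin (m * t)) / m := by
  have h1 : (Complex.exp (-(t * Complex.I))) ^ m =
      ((Real.cos (m * t) : ℝ) : ℂ) - ((Real.sin (m * t) : ℝ) : ℂ) * Complex.I := by
    rw [← Complex.exp_nat_mul]
    have h2 : (m : ℂ) * -(t * Complex.I) = ((-(m * t) : ℝ) : ℂ) * Complex.I := by
      push_cast
      ring
    rw [h2, Complex.exp_mul_I, ← Complex.ofReal_cos, ← Complex.ofReal_sin, Real.cos_neg,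
      Real.sin_neg]
    push_cast
    ring
  have h3 : ((m : ℕ) : ℂ) = ((m : ℝ) : ℂ) := by push_cast; rfl
  rw [mul_pow, h1, h3, Complex.div_ofReal_re, Complex.mul_re, Complex.sub_re, Complex.sub_im]
  simp only [Complex.ofReal_re, Complex.ofReal_im, Complex.mul_re, Complex.mul_im, Complex.I_re,
    Complex.I_im]
  ring

/-- the integral of one term of the series -/
lemma int_term (α : ℂ) (m n : ℕ) (hn : 1 ≤ n) :
    ∫ t in (0 : ℝ)..2 * Real.pi,
      ((α * Complex.exp (-(t * Complex.I))) ^ m / m).re * Real.cos (n * t) =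
      if m = n then Real.pi / n * (α ^ n).re else 0 := by
  have h0 : ∀ t : ℝ, ((α * Complex.exp (-(t * Complex.I))) ^ m / m).re * Real.cos (n * t) =
      ((α ^ m).re / m) * (Real.cos (m * t) * Real.cos (n * t)) +
        ((α ^ m).im / m) * (Real.sin (m * t) * Real.cos (n * t)) := by
    intro t
    rw [re_pow_div]
    ring
  rw [intervalIntegral.integral_congr (fun t _ => h0 t), intervalIntegral.integral_add,
    intervalIntegral.integral_const_mul, intervalIntegral.integral_const_mul,
    int_cos_cos m n hn, int_sin_cos]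
  · split_ifs with h
    · subst h
      ring
    · ring
  · apply Continuous.intervalIntegrable
    fun_prop
  · apply Continuous.intervalIntegrable
    fun_prop

/-! ## One linear factor -/

/-- (i) `‖α‖ < 1` -/
lemma lin_lt (α : ℂ) (hα : ‖α‖ < 1) (n : ℕ) (hn : 1 ≤ n) :
    ∫ t in (0 : ℝ)..2 * Real.pi, Real.log ‖circleMap 0 1 t - α‖ * Real.cos (n * t) =
      -(Real.pi / n) * (α ^ n).re := by
  have hw : ∀ t : ℝ, ‖α * Complex.exp (-(t * Complex.I))‖ < 1 := fun t => by
    rw [norm_w]
    exact hα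
  have hs : ∀ t : ℝ, HasSum (fun m : ℕ =>
      ((α * Complex.exp (-(t * Complex.I))) ^ m / m).re * Real.cos (n * t))
      (-(Real.log ‖circleMap 0 1 t - α‖ * Real.cos (n * t))) := by
    intro t
    have h1 := Complex.hasSum_re (Complex.hasSum_taylorSeries_neg_log (hw t))
    have h2 := h1.mul_right (Real.cos (n * t))
    rw [Complex.neg_re, Complex.log_re, ← norm_sub_eq, neg_mul] at h2
    exact h2
  have hS := intervalIntegral.hasSum_integral_of_dominated_convergence (μ := volume)
    (a := 0) (b := 2 * Real.pi)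
    (F := fun (m : ℕ) (t : ℝ) =>
      ((α * Complex.exp (-(t * Complex.I))) ^ m / m).re * Real.cos (n * t))
    (f := fun t : ℝ => -(Real.log ‖circleMap 0 1 t - α‖ * Real.cos (n * t)))
    (fun (m : ℕ) (_ : ℝ) => ‖α‖ ^ m)
    (fun m => by
      apply Continuous.aestronglyMeasurable
      fun_prop)
    (fun m => Eventually.of_forall fun t _ => by
      rw [norm_mul]
      have h1 : ‖Real.cos (n * t)‖ ≤ 1 := Real.abs_cos_le_one _
      have h2 : ‖((α * Complex.exp (-(t * Complex.I))) ^ m / m).re‖ ≤ ‖α‖ ^ m := by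
        refine (Complex.abs_re_le_norm _).trans ?_
        rw [norm_div, norm_pow, norm_w, Complex.norm_natCast]
        rcases Nat.eq_zero_or_pos m with rfl | hm
        · simp
        · apply div_le_self (by positivity)
          exact_mod_cast hm
      calc _ ≤ ‖α‖ ^ m * 1 := mul_le_mul h2 h1 (norm_nonneg _) (by positivity)
        _ = ‖α‖ ^ m := mul_one _)
    (Eventually.of_forall fun t _ => summable_geometric_of_lt_one (norm_nonneg _) hα)
    intervalIntegrable_const
    (Eventually.of_forall fun t _ => hs t)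
  have h3 : HasSum (fun m : ℕ => if m = n then Real.pi / n * (α ^ n).re else 0)
      (Real.pi / n * (α ^ n).re) := hasSum_ite_eq n _
  have h4 : (fun m : ℕ => ∫ t in (0 : ℝ)..2 * Real.pi,
      ((α * Complex.exp (-(t * Complex.I))) ^ m / m).re * Real.cos (n * t)) =
      fun m : ℕ => if m = n then Real.pi / n * (α ^ n).re else 0 := by
    funext m
    exact int_term α m n hn
  rw [h4] at hS
  have h5 := hS.unique h3
  rw [intervalIntegral.integral_neg] at h5
  linarith

lemma ii_log (α : ℂ) :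
    IntervalIntegrable (fun t : ℝ => Real.log ‖circleMap 0 1 t - α‖) volume 0 (2 * Real.pi) :=
  circleIntegrable_log_norm_sub_const (a := α) (c := 0) 1

/-- almost everywhere the point is not in a given finite set -/
lemma ae_notin (s : Set ℂ) (hs : s.Countable) : ∀ᵐ t : ℝ ∂volume, circleMap 0 1 t ∉ s := by
  have h := (hs.preimage_circleMap 0 (R := 1) one_ne_zero).measure_zero volume
  rw [ae_iff]
  convert h using 2
  ext t
  simp

/-- (iii) `‖α‖ = 1` -/
lemma lin_eq (α : ℂ) (hα : ‖α‖ = 1) (n : ℕ) (hn : 1 ≤ n) :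
    ∫ t in (0 : ℝ)..2 * Real.pi, Real.log ‖circleMap 0 1 t - α‖ * Real.cos (n * t) =
      -(Real.pi / n) * (α ^ n).re := by
  have hne : ∀ᵐ t : ℝ ∂volume, circleMap 0 1 t ≠ α := by
    filter_upwards [ae_notin {α} (countable_singleton α)] with t ht
    simpa using ht
  have hr : ∀ᶠ r : ℝ in 𝓝[<] (1 : ℝ), 0 < r ∧ r < 1 := by
    have h1 : ∀ᶠ r : ℝ in 𝓝[<] (1 : ℝ), 0 < r :=
      (eventually_gt_nhds zero_lt_one).filter_mono nhdsWithin_le_nhds
    filter_upwards [h1, self_mem_nhdsWithin] with r h1 h2 using ⟨h1, h2⟩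
  have hT := intervalIntegral.tendsto_integral_filter_of_dominated_convergence (μ := volume)
    (a := 0) (b := 2 * Real.pi) (l := 𝓝[<] (1 : ℝ))
    (F := fun (r : ℝ) (t : ℝ) => Real.log ‖circleMap 0 1 t - r * α‖ * Real.cos (n * t))
    (f := fun t : ℝ => Real.log ‖circleMap 0 1 t - α‖ * Real.cos (n * t))
    (fun t => |Real.log ‖circleMap 0 1 t - α‖| + Real.log 2)
    (Eventually.of_forall fun r => by
      have h1 := (intervalIntegrable_iff.1 (ii_log ((r : ℂ) * α))).aestronglyMeasurable
      exact h1.mul (Continuous.aestronglyMeasurable (by fun_prop)))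
    (hr.mono fun r hr => by
      filter_upwards [hne] with t ht _
      have hz := nz t
      have h1 : ‖circleMap 0 1 t - α‖ ≤ 2 * ‖circleMap 0 1 t - r * α‖ := by
        have h2 : ‖(r : ℂ) * α‖ = r := by
          rw [norm_mul, hα, mul_one, Complex.norm_real, Real.norm_of_nonneg hr.1.le]
        have h3 : 1 - r ≤ ‖circleMap 0 1 t - r * α‖ := by
          have := norm_sub_norm_le (circleMap 0 1 t) (r * α)
          rw [hz, h2] at this
          exact this
        have h4 : ‖(r : ℂ) * α - α‖ = 1 - r := by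
          have : (r : ℂ) * α - α = ((r - 1 : ℝ) : ℂ) * α := by
            push_cast
            ring
          rw [this, norm_mul, hα, mul_one, Complex.norm_real, Real.norm_eq_abs,
            abs_of_nonpos (by linarith [hr.2])]
          ring
        calc ‖circleMap 0 1 t - α‖ = ‖(circleMap 0 1 t - r * α) + (r * α - α)‖ := by
              congr 1
              ring
          _ ≤ ‖circleMap 0 1 t - r * α‖ + ‖(r : ℂ) * α - α‖ := norm_add_le _ _
          _ ≤ _ := by
              rw [h4]
              linarith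
      have h5 : ‖circleMap 0 1 t - r * α‖ ≤ 2 := by
        have h2 : ‖(r : ℂ) * α‖ = r := by
          rw [norm_mul, hα, mul_one, Complex.norm_real, Real.norm_of_nonneg hr.1.le]
        have := norm_sub_le (circleMap 0 1 t) (r * α)
        rw [hz, h2] at this
        linarith [hr.2]
      have h6 : 0 < ‖circleMap 0 1 t - α‖ := norm_pos_iff.2 (sub_ne_zero.2 ht)
      have h7 : 0 < ‖circleMap 0 1 t - r * α‖ := by linarith
      have h8 : Real.log ‖circleMap 0 1 t - r * α‖ ≤ Real.log 2 := Real.log_le_log h7 h5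
      have h9 : Real.log ‖circleMap 0 1 t - α‖ ≤ Real.log 2 + Real.log ‖circleMap 0 1 t - r * α‖ := by
        rw [← Real.log_mul two_ne_zero h7.ne']
        exact Real.log_le_log h6 h1
      have h10 : |Real.log ‖circleMap 0 1 t - r * α‖| ≤
          |Real.log ‖circleMap 0 1 t - α‖| + Real.log 2 := by
        rw [abs_le]
        have h11 := neg_abs_le (Real.log ‖circleMap 0 1 t - α‖)
        have h12 := abs_nonneg (Real.log ‖circleMap 0 1 t - α‖)
        constructor <;> linarith
      rw [norm_mul]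
      have h13 : ‖Real.cos (n * t)‖ ≤ 1 := Real.abs_cos_le_one _
      calc _ ≤ ‖Real.log ‖circleMap 0 1 t - r * α‖‖ * 1 :=
            mul_le_mul_of_nonneg_left h13 (norm_nonneg _)
        _ ≤ _ := by
            rw [mul_one]
            exact h10)
    ((ii_log α).abs.add intervalIntegrable_const)
    (by
      filter_upwards [hne] with t ht _
      have h1 : Tendsto (fun r : ℝ => ‖circleMap 0 1 t - r * α‖) (𝓝 (1 : ℝ))
          (𝓝 ‖circleMap 0 1 t - ((1 : ℝ) : ℂ) * α‖) := by
        apply Continuous.tendsto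
        fun_prop
      rw [Complex.ofReal_one, one_mul] at h1
      have h2 : ‖circleMap 0 1 t - α‖ ≠ 0 := norm_ne_zero_iff.2 (sub_ne_zero.2 ht)
      exact ((h1.log h2).mul_const _).mono_left nhdsWithin_le_nhds)
  have hT2 : Tendsto (fun r : ℝ => ∫ t in (0 : ℝ)..2 * Real.pi,
      Real.log ‖circleMap 0 1 t - r * α‖ * Real.cos (n * t)) (𝓝[<] (1 : ℝ))
      (𝓝 (-(Real.pi / n) * ((((1 : ℝ) : ℂ) * α) ^ n).re)) := by
    have h1 : Tendsto (fun r : ℝ => -(Real.pi / n) * (((r : ℂ) * α) ^ n).re) (𝓝 (1 : ℝ))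
        (𝓝 (-(Real.pi / n) * ((((1 : ℝ) : ℂ) * α) ^ n).re)) := by
      apply Continuous.tendsto
      have : Continuous fun r : ℝ => (((r : ℂ) * α) ^ n).re :=
        Complex.continuous_re.comp (by fun_prop)
      exact continuous_const.mul this
    refine (h1.mono_left nhdsWithin_le_nhds).congr' ?_
    filter_upwards [hr] with r hr
    refine (lin_lt ((r : ℂ) * α) ?_ n hn).symm
    rw [norm_mul, hα, mul_one, Complex.norm_real, Real.norm_of_nonneg hr.1.le]
    exact hr.2
  have h := tendsto_nhds_unique hT hT2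
  rw [h, Complex.ofReal_one, one_mul]

/-- (ii) `‖α‖ > 1` -/
lemma lin_gt (α : ℂ) (hα : 1 < ‖α‖) (n : ℕ) (hn : 1 ≤ n) :
    ∫ t in (0 : ℝ)..2 * Real.pi, Real.log ‖circleMap 0 1 t - α‖ * Real.cos (n * t) =
      -(Real.pi / n) * ((α⁻¹) ^ n).re := by
  have hα0 : α ≠ 0 := fun h => by
    rw [h, norm_zero] at hα
    linarith
  set β : ℂ := (starRingEnd ℂ) (α⁻¹) with hβ
  have hβn : ‖β‖ < 1 := by
    rw [hβ, RCLike.norm_conj, norm_inv]
    exact inv_lt_one_of_one_lt₀ hα
  have hlog : ∀ t : ℝ, Real.log ‖circleMap 0 1 t - α‖ =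
      Real.log ‖α‖ + Real.log ‖circleMap 0 1 t - β‖ := by
    intro t
    set z := circleMap 0 1 t with hz
    have hz1 : ‖z‖ = 1 := nz t
    have hzz : z * (starRingEnd ℂ) z = 1 := by
      rw [Complex.mul_conj, Complex.normSq_eq_norm_sq, hz1]
      norm_num
    have h1 : ‖z - α‖ = ‖α‖ * ‖z - β‖ := by
      have h2 : (starRingEnd ℂ) (z - α) * z = -((starRingEnd ℂ) α) * (z - β) := by
        have h3 : (starRingEnd ℂ) α * β = 1 := by
          rw [hβ, ← map_mul, mul_inv_cancel₀ hα0, map_one]
        rw [map_sub]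
        linear_combination hzz - h3
      have h4 : ‖(starRingEnd ℂ) (z - α) * z‖ = ‖z - α‖ := by
        rw [norm_mul, RCLike.norm_conj, hz1, mul_one]
      rw [← h4, h2, norm_mul, norm_neg, RCLike.norm_conj]
    have h5 : 0 < ‖z - β‖ := by
      have := norm_sub_norm_le z β
      rw [hz1] at this
      linarith
    rw [h1, Real.log_mul (by linarith) h5.ne']
  have h0 : ∀ t : ℝ, Real.log ‖circleMap 0 1 t - α‖ * Real.cos (n * t) =
      Real.log ‖α‖ * Real.cos (n * t) + Real.log ‖circleMap 0 1 t - β‖ * Real.cos (n * t) := by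
    intro t
    rw [hlog]
    ring
  have hcc : ContinuousOn (fun t : ℝ => Real.cos (n * t)) (uIcc 0 (2 * Real.pi)) := by
    apply Continuous.continuousOn
    fun_prop
  rw [intervalIntegral.integral_congr (fun t _ => h0 t), intervalIntegral.integral_add,
    intervalIntegral.integral_const_mul, int_cos_nat n hn, lin_lt β hβn n hn]
  · have : (β ^ n).re = ((α⁻¹) ^ n).re := by
      rw [hβ, ← map_pow, Complex.conj_re]
    rw [this]
    ring
  · apply Continuous.intervalIntegrable
    fun_prop
  · exact (ii_log β).mul_continuousOn hcc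

/-- the contribution of a root -/
def cont (n : ℕ) (α : ℂ) : ℝ := if ‖α‖ ≤ 1 then (α ^ n).re else ((α⁻¹) ^ n).re

lemma lin_all (α : ℂ) (n : ℕ) (hn : 1 ≤ n) :
    ∫ t in (0 : ℝ)..2 * Real.pi, Real.log ‖circleMap 0 1 t - α‖ * Real.cos (n * t) =
      -(Real.pi / n) * cont n α := by
  unfold cont
  rcases lt_trichotomy ‖α‖ 1 with h | h | h
  · rw [if_pos h.le, lin_lt α h n hn]
  · rw [if_pos h.le, lin_eq α h n hn]
  · rw [if_neg (not_le.2 h), lin_gt α h n hn]

/-! ## The general case -/

/-- the product of the linear factors -/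
def pr (s : Multiset ℂ) : ℂ[X] := (s.map fun a => X - C a).prod

lemma pr_ne_zero (s : Multiset ℂ) : pr s ≠ 0 :=
  (monic_multiset_prod_of_monic _ _ fun a _ => monic_X_sub_C a).ne_zero

lemma pr_cons (a : ℂ) (s : Multiset ℂ) : pr (a ::ₘ s) = (X - C a) * pr s := by
  simp [pr]

lemma ae_eval_ne (P : ℂ[X]) (hP : P ≠ 0) : ∀ᵐ t : ℝ ∂volume, P.eval (circleMap 0 1 t) ≠ 0 := by
  have h := ae_notin {z | P.eval z = 0}
    (by
      have : {z : ℂ | P.eval z = 0} = (P.roots.toFinset : Set ℂ) := by
        ext z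
        simp [hP]
      rw [this]
      exact (Finset.finite_toSet _).countable)
  filter_upwards [h] with t ht
  simpa using ht

lemma log_pr_cons (a : ℂ) (s : Multiset ℂ) : ∀ᵐ t : ℝ ∂volume,
    Real.log ‖(pr (a ::ₘ s)).eval (circleMap 0 1 t)‖ =
      Real.log ‖circleMap 0 1 t - a‖ + Real.log ‖(pr s).eval (circleMap 0 1 t)‖ := by
  filter_upwards [ae_eval_ne _ (pr_ne_zero (a ::ₘ s))] with t ht
  rw [pr_cons, eval_mul] at ht ⊢
  have h1 := left_ne_zero_of_mul ht
  have h2 := right_ne_zero_of_mul ht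
  rw [norm_mul, Real.log_mul (norm_ne_zero_iff.2 h1) (norm_ne_zero_iff.2 h2)]
  simp

lemma pr_main (n : ℕ) (hn : 1 ≤ n) (s : Multiset ℂ) :
    IntervalIntegrable (fun t : ℝ => Real.log ‖(pr s).eval (circleMap 0 1 t)‖) volume
      0 (2 * Real.pi) ∧
    ∫ t in (0 : ℝ)..2 * Real.pi, Real.log ‖(pr s).eval (circleMap 0 1 t)‖ * Real.cos (n * t) =
      -(Real.pi / n) * (s.map (cont n)).sum := by
  have hcc : ContinuousOn (fun t : ℝ => Real.cos (n * t)) (uIcc 0 (2 * Real.pi)) := by
    apply Continuous.continuousOn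
    fun_prop
  induction s using Multiset.induction_on with
  | empty => simp [pr]
  | cons a s ih =>
    obtain ⟨ih1, ih2⟩ := ih
    have hae := log_pr_cons a s
    refine ⟨?_, ?_⟩
    · refine ((ii_log a).add ih1).congr_ae ?_
      refine ae_restrict_of_ae ?_
      filter_upwards [hae] with t ht
      exact ht.symm
    · have h1 : ∫ t in (0 : ℝ)..2 * Real.pi,
          Real.log ‖(pr (a ::ₘ s)).eval (circleMap 0 1 t)‖ * Real.cos (n * t) =
          ∫ t in (0 : ℝ)..2 * Real.pi, (Real.log ‖circleMap 0 1 t - a‖ * Real.cos (n * t) +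
            Real.log ‖(pr s).eval (circleMap 0 1 t)‖ * Real.cos (n * t)) := by
        apply intervalIntegral.integral_congr_ae
        filter_upwards [hae] with t ht _
        rw [ht]
        ring
      rw [h1, intervalIntegral.integral_add ((ii_log a).mul_continuousOn hcc)
        (ih1.mul_continuousOn hcc), ih2, lin_all a n hn, Multiset.map_cons, Multiset.sum_cons]
      ring

/-- MODULE FOU without any hypothesis. -/
theorem hFou' : StFou := by
  intro G n hG hn
  have hcc : ContinuousOn (fun t : ℝ => Real.cos (n * t)) (uIcc 0 (2 * Real.pi)) := by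
    apply Continuous.continuousOn
    fun_prop
  have hsplit : G = C G.leadingCoeff * pr G.roots :=
    (IsAlgClosed.splits G).eq_prod_roots
  have hlc : G.leadingCoeff ≠ 0 := leadingCoeff_ne_zero.2 hG
  obtain ⟨h1, h2⟩ := pr_main n hn G.roots
  have h3 : ∫ t in (0 : ℝ)..2 * Real.pi,
      Real.log ‖G.eval (circleMap 0 1 t)‖ * Real.cos (n * t) =
      ∫ t in (0 : ℝ)..2 * Real.pi, (Real.log ‖G.leadingCoeff‖ * Real.cos (n * t) +
        Real.log ‖(pr G.roots).eval (circleMap 0 1 t)‖ * Real.cos (n * t)) := by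
    apply intervalIntegral.integral_congr_ae
    filter_upwards [ae_eval_ne _ (pr_ne_zero G.roots)] with t ht _
    have h4 : G.eval (circleMap 0 1 t) =
        G.leadingCoeff * (pr G.roots).eval (circleMap 0 1 t) := by
      conv_lhs => rw [hsplit]
      rw [eval_mul, eval_C]
    rw [h4, norm_mul, Real.log_mul (norm_ne_zero_iff.2 hlc) (norm_ne_zero_iff.2 ht)]
    ring
  rw [h3, intervalIntegral.integral_add, intervalIntegral.integral_const_mul,
    int_cos_nat n hn, h2, mul_zero, zero_add]
  · rfl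
  · apply Continuous.intervalIntegrable
    fun_prop
  · exact h1.mul_continuousOn hcc

/-- MODULE FOU. -/
theorem hFou (_h1 : StMem) : StFou := hFou'

end Pool.Agent.Helper65.SL

end
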