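import Mathlib
import Pool.Agent.Helper65.SL.Base
import Pool.Agent.Helper91.SL.M_NFM

/-! Project SL, module MPT. -/

set_option maxSynthPendingDepth 3
set_option linter.unusedSectionVars false
set_option linter.deprecated false
set_option linter.unusedVariables false

namespace Pool.Agent.Helper65.SLM

open Filter Topology
open scoped ContDiff Manifold
open Pool.Agent.Helper23.Ric Pool.Agent.Helper65.SL

variable {E₁ E₂ : Type*} [NormedAddCommGroup E₁] [NormedSpace ℝ E₁] [FiniteDimensional ℝ E₁]
  [NormedAddCommGroup E₂] [NormedSpace ℝ E₂] [FiniteDimensional ℝ E₂]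
  {H₁ H₂ : Type*} [TopologicalSpace H₁] [TopologicalSpace H₂]
  {I : ModelWithCorners ℝ E₁ H₁} {J : ModelWithCorners ℝ E₂ H₂} [I.Boundaryless] [J.Boundaryless]
  {M N : Type*} [TopologicalSpace M] [TopologicalSpace N]
  [ChartedSpace H₁ M] [IsManifold I 1 M] [ChartedSpace H₂ N] [IsManifold J 1 N]

theorem gram_change {m : ℕ} (B : E₂ →L[ℝ] E₂ →L[ℝ] ℝ) (d : Module.Basis (Fin m) ℝ E₂)
    (e : Fin m → E₂) :
    (Matrix.of fun i j => B (e i) (e j)).det =
      (Matrix.of fun i j => d.repr (e i) j).det ^ 2 * (Matrix.of fun i j => B (d i) (d j)).det := by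
  have h1 : (Matrix.of fun i j => B (e i) (e j)) =
      (Matrix.of fun i j => d.repr (e i) j) * (Matrix.of fun i j => B (d i) (d j)) *
        (Matrix.of fun i j => d.repr (e i) j).transpose := by
    ext i j
    have h2 : ∀ k, B (d k) (e j) = ∑ l, d.repr (e j) l * B (d k) (d l) := by
      intro k
      conv_lhs => rw [← d.sum_repr (e j)]
      rw [map_sum]
      simp only [map_smul, smul_eq_mul]
    have h3 : B (e i) (e j) = ∑ k, d.repr (e i) k * B (d k) (e j) := by
      conv_lhs => rw [← d.sum_repr (e i)]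
      rw [map_sum, ContinuousLinearMap.sum_apply]
      simp only [map_smul, ContinuousLinearMap.smul_apply, smul_eq_mul]
    rw [Matrix.mul_assoc, Matrix.mul_apply]
    simp only [Matrix.of_apply, Matrix.mul_apply, Matrix.transpose_apply]
    rw [h3]
    refine Finset.sum_congr rfl fun k _ => ?_
    rw [h2]
    congr 1
    refine Finset.sum_congr rfl fun l _ => ?_
    ring
  rw [h1, Matrix.det_mul, Matrix.det_mul, Matrix.det_transpose]
  ring

theorem mpt {m : ℕ} (hm : 2 ≤ m) (hdim : m = Module.finrank ℝ E₂)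
    (b : Module.Basis (Fin 2) ℝ E₁)
    (loc : ∀ (G : E₁ × E₂ → (E₁ × E₂) →L[ℝ] (E₁ × E₂) →L[ℝ] ℝ) (w₀ : E₁) (z₀ : E₂),
      SplitAt G w₀ z₀ → ∀ e : Fin m → E₂, IsOrtho (blockW G w₀ z₀) e →
      IsLocalMin (fun w => (Matrix.of fun i j => G (w, z₀) (0, e i) (0, e j)).det) w₀ →
      ∑ i, ricci G (w₀, z₀) (0, e i) (0, e i) ≤
        ∑ i, (LinearMap.trace ℝ E₁ (aLin G w₀ z₀ (e i)) + ricci (blockW G w₀) z₀ (e i) (e i)))
    (lps : ∀ (G : E₁ × E₂ → (E₁ × E₂) →L[ℝ] (E₁ × E₂) →L[ℝ] ℝ) (w₀ : E₁) (z₀ : E₂),
      SplitAt G w₀ z₀ → (∀ e : Fin m → E₂, IsOrtho (blockW G w₀ z₀) e →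
        0 < ∑ i, (LinearMap.trace ℝ E₁ (aLin G w₀ z₀ (e i)) + ricci (blockW G w₀) z₀ (e i) (e i))) →
      ∀ e : Fin m → E₂, IsOrtho (conf (phi m b G w₀) (blockW G w₀) z₀) e →
      0 < ∑ i, ricci (conf (phi m b G w₀) (blockW G w₀)) z₀ (e i) (e i))
    (g : RMetric (I.prod J) (M × N)) (ho : OrthSlices g) (hR : KPosRicci m g)
    (x : M) (y : N) (d : Module.Basis (Fin m) ℝ E₂)
    (hmin : IsLocalMin (fun x' => (Matrix.of fun i j =>
      sliceForm g x' y (d i) (d j)).det) x) :
    ∀ e : Fin m → E₂, IsOrtho (inChart J (newForm m b g x) y (extChartAt J y y)) e →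
      0 < ∑ i, ricci (inChart J (newForm m b g x) y) (extChartAt J y y) (e i) (e i) := by
  intro e he
  have hsp := Pool.Agent.Helper91.SL.split_chart g ho x y
  have heq := newForm_chart m b g x y
  have hloc := lps (inChart (I.prod J) g.form (x, y)) (extChartAt I x x) (extChartAt J y y) hsp (by
    intro e' he'
    have h1 : IsOrtho (inChart (I.prod J) g.form (x, y) (extChartAt I x x, extChartAt J y y))
        (fun i => ((0 : E₁), e' i)) := fun i j => he' i j
    have h2 : 0 < ∑ i, ricci (inChart (I.prod J) g.form (x, y))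
        (extChartAt I x x, extChartAt J y y) (0, e' i) (0, e' i) := by
      have := hR (x, y) (fun i => (0, e' i))
      rw [prod_self] at this
      exact this h1
    refine lt_of_lt_of_le h2 (loc _ _ _ hsp e' he' ?_)
    have hz := mem_of_mem_nhds (target_nhds (I := J) y)
    have hval : ∀ w ∈ (extChartAt I x).target,
        (Matrix.of fun i j => inChart (I.prod J) g.form (x, y) (w, extChartAt J y y)
          (0, e' i) (0, e' j)).det =
        (Matrix.of fun i j => d.repr (e' i) j).det ^ 2 *
          (Matrix.of fun i j => sliceForm g ((extChartAt I x).symm w) y (d i) (d j)).det := by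
      intro w hw
      rw [← gram_change]
      congr 1
      ext i j
      simp only [Matrix.of_apply]
      rw [inChart_prod_apply g hw hz, dsymm_self, extChartAt_to_inv]
      simp only [map_zero]
      rfl
    have hx0 := mem_of_mem_nhds (target_nhds (I := I) x)
    have hcont : Tendsto (extChartAt I x).symm (𝓝 (extChartAt I x x)) (𝓝 x) := by
      have := continuousAt_extChartAt_symm (I := I) x
      rw [ContinuousAt, extChartAt_to_inv] at this
      exact this
    have h3 := hcont.eventually hmin
    change ∀ᶠ w in 𝓝 (extChartAt I x x), _ ≤ _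
    filter_upwards [h3, target_eventually (I := I) x] with w hw hwt
    rw [hval w hwt, hval _ hx0, extChartAt_to_inv]
    exact mul_le_mul_of_nonneg_left hw (sq_nonneg _)) e (by
      have h1 := heq.self_of_nhds
      rwa [h1] at he)
  have h2 : ∀ v, ricci (inChart J (newForm m b g x) y) (extChartAt J y y) v v =
      ricci (conf (phi m b (inChart (I.prod J) g.form (x, y)) (extChartAt I x x))
      (blockW (inChart (I.prod J) g.form (x, y)) (extChartAt I x x))) (extChartAt J y y)
      v v := by
    intro v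
    have hch : ∀ v w, (fun q => chris (inChart J (newForm m b g x) y) q v w)
        =ᶠ[𝓝 (extChartAt J y y)] (fun q => chris
          (conf (phi m b (inChart (I.prod J) g.form (x, y)) (extChartAt I x x))
      (blockW (inChart (I.prod J) g.form (x, y)) (extChartAt I x x))) q v w) := by
      intro v w
      filter_upwards [heq.eventuallyEq_nhds] with q hq
      simp only [chris, dform₁, dform₂, hq.fderiv_eq, hq.self_of_nhds]
    simp only [ricci, riem]
    refine Finset.sum_congr rfl fun i _ => ?_
    rw [(hch v v).fderiv_eq, (hch _ v).fderiv_eq]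
    have e1 : ∀ a b', chris (inChart J (newForm m b g x) y) (extChartAt J y y) a b' =
        chris (conf (phi m b (inChart (I.prod J) g.form (x, y)) (extChartAt I x x))
      (blockW (inChart (I.prod J) g.form (x, y)) (extChartAt I x x))) (extChartAt J y y)
        a b' := fun a b' => (hch a b').self_of_nhds
    simp only [e1]
  simp only [h2]
  exact hloc

end Pool.Agent.Helper65.SLM
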