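import Mathlib
import Pool.Agent.Helper65.SL.Base

/-!
# Project SL: positive Ricci curvature on `S² × N`, part (i): a slice of locally minimal volume density

THEOREM (target 1).  Let `g` be a metric on `S² × N` with `T S² ⊥ T N`, let `D(x,y)` be the volume density of the
slice `{x} × N` at `y`.  If for some `x₀` all functions `x ↦ D(x,y)` have a local minimum at `x₀` and the Ricci
curvature of `g` is positive (or only `m`-positive), then `N` admits a metric of positive scalar curvature.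

All modules are independent.  `Base.lean` (imported) has: `SplitAt`, `SplitAt.eventually`, `goodW`, `goodV`,
`fderiv_mixed`, `fderiv_W`, `apply`, `freeze` (a metric with `BlockAt`, same `blockV`, `blockW`, `ell`), `ell_spec`,
`differentiableAt_ell`, and the Christoffel symbols
`chris_WW_V : blockV (Γ((0,v),(0,v'))).1 u = - dW u v v' / 2`, `chris_WW_W : (Γ((0,v),(0,v'))).2 = chris (blockW) v v'`,
`chris_VW_V : (Γ((u,0),(0,v))).1 = ell v u`, `chris_VW_W : blockW (Γ((u,0),(0,v))).2 v' = dW u v v' / 2`.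
`Pool/Agent/Helper23/Ric/{Defs,Local,Block,Conf,Two,Final,Man,ProdMan,Bridge}.lean` have everything on Christoffel symbols,
curvature, traces in orthonormal frames (`ortho_basis`, `trace_ortho`), and the proofs of the analogous facts for
metrics whose `W`-block does not depend on `V` (`BlockAt`): use them as models.
-/

set_option maxSynthPendingDepth 3
set_option linter.unusedSectionVars false
set_option linter.deprecated false
set_option linter.unusedVariables false

namespace Pool.Agent.Helper65.SL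

open Filter Topology
open scoped ContDiff Manifold
open Pool.Agent.Helper23.Ric

variable {V W : Type*} [NormedAddCommGroup V] [NormedSpace ℝ V] [FiniteDimensional ℝ V]
  [NormedAddCommGroup W] [NormedSpace ℝ W] [FiniteDimensional ℝ W]

variable {G : V × W → (V × W) →L[ℝ] (V × W) →L[ℝ] ℝ} {w₀ : V} {z₀ : W}

/-- MODULE JAC (second derivative test for a determinant).  PROOF.  Restrict to the line `t ↦ w₀ + t u`:
`H t = F (w₀ + t u)` is a `C²` curve of matrices with `H 0 = 1`, and `det (H t)` has a local minimum at `0`.  First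
derivative of the determinant at an invertible matrix: `d/dt det (H t) = det (H t) * trace ((H t)⁻¹ * H' t)` (Jacobi;
for instance `det (H (t+s)) = det (H t) * det (1 + (H t)⁻¹ (H (t+s) - H t))` and `det (1 + M) = 1 + trace M + O(‖M‖²)`,
or by `ContinuousMultilinearMap.hasFDerivAt` for the rows and `Matrix.adjugate`).  So near `0` the derivative of
`δ t = det (H t)` is `δ t * trace ((H t)⁻¹ * H' t)`; it vanishes at `0`, which gives `trace (H' 0) = 0`; and the second
derivative at `0`, which is `≥ 0` at a local minimum of a `C²` function, equals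
`δ' 0 * trace (H' 0) + trace (H'' 0) - trace (H' 0 * H' 0) = trace (H'' 0) - trace (H' 0 ^ 2)` (derivative of the inverse:
`(H⁻¹)' = - H⁻¹ H' H⁻¹`).  Here `H' 0 = fderiv F w₀ u`, `H'' 0 = fderiv (fderiv F) w₀ u u`. -/
theorem jac {m : ℕ} {F : V → Matrix (Fin m) (Fin m) ℝ}
    (hF : ∀ i j, ContDiffAt ℝ 2 (fun w => F w i j) w₀) (h1 : F w₀ = 1)
    (hmin : IsLocalMin (fun w => (F w).det) w₀) (u : V) :
    ∑ i, fderiv ℝ (fun w => F w i i) w₀ u = 0 ∧
      ∑ i, ∑ j, fderiv ℝ (fun w => F w i j) w₀ u * fderiv ℝ (fun w => F w j i) w₀ u ≤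
        ∑ i, fderiv ℝ (fderiv ℝ (fun w => F w i i)) w₀ u u := by
  sorry

/-- MODULE RVS (the `V`-part of the curvature).  PROOF.  Write `Γ` for `chris G`, `p = (w₀, z₀)`.  By definition
`R((u,0),(0,v))(0,v) = ∂_(u,0) Γ((0,v),(0,v)) - ∂_(0,v) Γ((u,0),(0,v)) + Γ((u,0), Γ((0,v),(0,v))) - Γ((0,v), Γ((u,0),(0,v)))`.
Take the `V`-component.  Let `s(p)` be `-` the `V`-component of `Γ((0,v),(0,v))` at `p`, so that
`G p (s(p),0) (u,0) = (1/2) fderiv G p (u,0) (0,v) (0,v)` for all `p` near `(w₀,z₀)` (`chris_WW_V` at `p`, use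
`SplitAt.eventually`; note `blockV G p.1 p.2 = G p` on `V`).  With `Γ((0,v),(0,v)).2 = chris (blockW) v v =: c` and
`Γ((u,0),(0,v)) = (ell v u, k u)`:
`(third term).1 = - (Γ((u,0),(s,0))).1 + ell c u`, `(fourth term).1 = - ell v (ell v u) - (Γ((0,v),(0,k u))).1`, and
`(second term).1 = - fderiv (fun z => ell G w₀ z v) z₀ v u` (derivative in a `W`-direction, exactly as
`BlockAt.fderiv_chris_VW`, only the first component).  So the `V`-part of `R` is `aLin v u` plus
`- ∂_(u,0) s - (Γ((u,0),(s,0))).1 - (Γ((0,v),(0,k u))).1`.  Now sum `blockV ( · ) u` over `u = f a`.  The terms `aLin`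
give the trace (`trace_ortho`).  Next `blockV (- (Γ((0,v),(0,k u))).1) u = dW u v (k u) / 2 = blockW (k u) (k u)
= ∑ j, (blockW (k u) (e j))^2 = (1/4) ∑ j, (dW u v (e j))^2` (`chris_WW_V`, `chris_VW_W`, Parseval from `ortho_basis`).
Differentiating `G p (s,0) (u,0) = (1/2) fderiv G p (u,0) (0,v) (0,v)` in the direction `(u,0)`:
`blockV (∂_(u,0) s) u = (1/2) ddW u u v v - fderiv G (u,0) (s,0) (u,0)`, and
`fderiv G (u,0) (s,0) (u,0) = blockV (Γ((u,0),(s,0))).1 u + blockV s (Γ((u,0),(u,0))).1` (`chris_compat`, only `V`-components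
matter as `V ⊥ W`), and `blockV s x = dW x v v / 2`.  Hence `blockV (- ∂_(u,0) s - (Γ((u,0),(s,0))).1) u =
- (1/2) ddW u u v v + (1/2) dW (Γ((u,0),(u,0))).1 v v`. -/
theorem rvs (h : SplitAt G w₀ z₀) {k m : ℕ} (f : Fin k → V) (hf : IsOrtho (blockV G w₀ z₀) f)
    (hk : k = Module.finrank ℝ V) (e : Fin m → W) (he : IsOrtho (blockW G w₀ z₀) e)
    (hm : m = Module.finrank ℝ W) (v : W) :
    ∑ a, blockV G w₀ z₀ (riem G (w₀, z₀) (f a, 0) (0, v) (0, v)).1 (f a) =
      LinearMap.trace ℝ V (aLin G w₀ z₀ v)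
      + ∑ a, (-(1 / 2) * ddW G w₀ z₀ (f a) (f a) v v
        + (1 / 2) * dW G w₀ z₀ (chris G (w₀, z₀) (f a, 0) (f a, 0)).1 v v
        + (1 / 4) * ∑ j, (dW G w₀ z₀ (f a) v (e j)) ^ 2) := by
  sorry

/-- MODULE RWS (the `W`-part of the curvature).  PROOF.  As in RVS, with `y ∈ W` in place of `u`:
`R((0,y),(0,v))(0,v) = ∂_(0,y) Γ((0,v),(0,v)) - ∂_(0,v) Γ((0,y),(0,v)) + Γ((0,y), Γ((0,v),(0,v))) - Γ((0,v), Γ((0,y),(0,v)))`.
The `W`-component of `Γ((0,a),(0,b))` is `chris (blockW G w₀) a b` along `{w₀} × W` (`chris_WW_W`, and both derivatives are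
in `W`-directions, so only the points `(w₀,z)` matter).  With `s(a,b) = -(Γ((0,a),(0,b))).1`, i.e.
`blockV (s(a,b)) u = dW u a b / 2`, and `k_u v = (Γ((u,0),(0,v))).2`, `blockW (k_u v) v' = dW u v v' / 2`:
`R(..).2 = riem (blockW G w₀) z₀ y v v - k_{s(v,v)} y + k_{s(y,v)} v`
(`Γ((0,y),(x,0)) = Γ((x,0),(0,y))`, `chris_symm`).  Sum `blockW ( · ) y` over `y = e j`: the first terms give
`ricci (blockW G w₀) z₀ v v` (`ricci_eq_trace`, `trace_ortho`);
`∑ j, blockW (k_{s(e j,v)} v) (e j) = ∑ j, dW (s(e j, v)) v (e j) / 2 = ∑ j, blockV (s(v,e j)) (s(e j,v)) =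
∑ j, ∑ a, (blockV (s(v,e j)) (f a))^2 = (1/4) ∑ a, ∑ j, (dW (f a) v (e j))^2` (`dW` is symmetric in the last two
arguments by `fderiv_symm`; Parseval for the basis `f` from `ortho_basis`), and
`∑ j, blockW (k_{s(v,v)} (e j)) (e j) = (1/2) ∑ j, dW (s(v,v)) (e j) (e j)` with
`s(v,v) = ∑ a, (dW (f a) v v / 2) f a` and `dW` linear in the first argument. -/
theorem rws (h : SplitAt G w₀ z₀) {k m : ℕ} (f : Fin k → V) (hf : IsOrtho (blockV G w₀ z₀) f)
    (hk : k = Module.finrank ℝ V) (e : Fin m → W) (he : IsOrtho (blockW G w₀ z₀) e)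
    (hm : m = Module.finrank ℝ W) (v : W) :
    ∑ j, blockW G w₀ z₀ (riem G (w₀, z₀) (0, e j) (0, v) (0, v)).2 (e j) =
      ricci (blockW G w₀) z₀ v v
      + ∑ a, ((1 / 4) * ∑ j, (dW G w₀ z₀ (f a) v (e j)) ^ 2
        - (1 / 4) * dW G w₀ z₀ (f a) v v * ∑ j, dW G w₀ z₀ (f a) (e j) (e j)) := by
  sorry

/-- MODULE LOC (the trace inequality at a slice of locally minimal density).  Uses RVS, RWS, JAC as hypotheses.
PROOF.  Choose an orthonormal basis `f : Fin k → V`, `k = finrank V`, of `blockV G w₀ z₀` (Gram-Schmidt: positive definite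
symmetric form; for instance from `LinearMap.BilinForm.exists_orthogonal_basis` rescaled, or by making `V` an inner
product space with `InnerProductSpace.Core`).  For each `i`, `ricci G (w₀,z₀) (0,e i) (0,e i)` is the trace of
`riemLin` (`ricci_eq_trace`), i.e. `∑ a, blockV (R((f a,0),(0,e i))(0,e i)).1 (f a) + ∑ j, blockW (R((0,e j),..)..).2 (e j)`
(the vectors `(f a,0)`, `(0,e j)` together are an orthonormal basis of `G (w₀,z₀)`; or use the trace of a linear map of
`V × W` as sum of the traces of the diagonal blocks).  Sum RVS + RWS over `v = e i`: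
`∑ i, ricci G (0,e i) (0,e i) = ∑ i, (trace (aLin (e i)) + ricci (blockW) (e i) (e i)) + ∑ a, Q a` with
`Q a = -(1/2) ∑ i, ddW (f a) (f a) (e i) (e i) + (1/2) ∑ i, dW (c a) (e i) (e i) + (1/2) ∑ i, ∑ j, (dW (f a) (e i) (e j))^2
- (1/4) (∑ i, dW (f a) (e i) (e i))^2`, `c a = (chris G (w₀,z₀) (f a,0) (f a,0)).1`.  Apply JAC to
`F w = Matrix.of fun i j => G (w,z₀) (0,e i) (0,e j)`, `F w₀ = 1` by `he`:
`fderiv (fun w => F w i j) w₀ u = dW u (e i) (e j)`, `fderiv (fderiv (fun w => F w i i)) w₀ u u = ddW u u (e i) (e i)`.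
So `∑ i, dW u (e i) (e i) = 0` for all `u` and `Q a = -(1/2) (∑ i, ddW .. - ∑ i j, (dW ..)^2) ≤ 0`. -/
theorem loc
    (jac : ∀ {m : ℕ} {F : V → Matrix (Fin m) (Fin m) ℝ}
      (hF : ∀ i j, ContDiffAt ℝ 2 (fun w => F w i j) w₀) (h1 : F w₀ = 1)
      (hmin : IsLocalMin (fun w => (F w).det) w₀) (u : V),
      ∑ i, fderiv ℝ (fun w => F w i i) w₀ u = 0 ∧
        ∑ i, ∑ j, fderiv ℝ (fun w => F w i j) w₀ u * fderiv ℝ (fun w => F w j i) w₀ u ≤
          ∑ i, fderiv ℝ (fderiv ℝ (fun w => F w i i)) w₀ u u)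
    (rvs : ∀ (h : SplitAt G w₀ z₀) {k m : ℕ} (f : Fin k → V) (hf : IsOrtho (blockV G w₀ z₀) f)
      (hk : k = Module.finrank ℝ V) (e : Fin m → W) (he : IsOrtho (blockW G w₀ z₀) e)
      (hm : m = Module.finrank ℝ W) (v : W),
      ∑ a, blockV G w₀ z₀ (riem G (w₀, z₀) (f a, 0) (0, v) (0, v)).1 (f a) =
        LinearMap.trace ℝ V (aLin G w₀ z₀ v)
        + ∑ a, (-(1 / 2) * ddW G w₀ z₀ (f a) (f a) v v
          + (1 / 2) * dW G w₀ z₀ (chris G (w₀, z₀) (f a, 0) (f a, 0)).1 v v
          + (1 / 4) * ∑ j, (dW G w₀ z₀ (f a) v (e j)) ^ 2))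
    (rws : ∀ (h : SplitAt G w₀ z₀) {k m : ℕ} (f : Fin k → V) (hf : IsOrtho (blockV G w₀ z₀) f)
      (hk : k = Module.finrank ℝ V) (e : Fin m → W) (he : IsOrtho (blockW G w₀ z₀) e)
      (hm : m = Module.finrank ℝ W) (v : W),
      ∑ j, blockW G w₀ z₀ (riem G (w₀, z₀) (0, e j) (0, v) (0, v)).2 (e j) =
        ricci (blockW G w₀) z₀ v v
        + ∑ a, ((1 / 4) * ∑ j, (dW G w₀ z₀ (f a) v (e j)) ^ 2
          - (1 / 4) * dW G w₀ z₀ (f a) v v * ∑ j, dW G w₀ z₀ (f a) (e j) (e j)))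
    (h : SplitAt G w₀ z₀) {m : ℕ} (hm : m = Module.finrank ℝ W) (e : Fin m → W)
    (he : IsOrtho (blockW G w₀ z₀) e)
    (hmin : IsLocalMin (fun w => (Matrix.of fun i j => G (w, z₀) (0, e i) (0, e j)).det) w₀) :
    ∑ i, ricci G (w₀, z₀) (0, e i) (0, e i) ≤
      ∑ i, (LinearMap.trace ℝ V (aLin G w₀ z₀ (e i)) + ricci (blockW G w₀) z₀ (e i) (e i)) := by
  sorry

/-- MODULE LPS (the scalar curvature of the conformally changed slice).  Compare `local_psc` in
`Pool/Agent/Helper23/Ric/Final.lean`; the proof is the same computation.  `phi m b G w₀ z = sig b G w₀ z / (2 (m-1))`,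
`conf φ H y = exp (2 φ y) • H y`.  PROOF.  Put `G' = freeze G w₀`: `BlockAt G' w₀ z₀` (`SplitAt.freeze`), with
`blockV G' w₀ = blockV G w₀`, `blockW G' w₀ = blockW G w₀`, `ell G' w₀ = ell G w₀` (`blockV_freeze`, `blockW_freeze`,
`ell_freeze`), hence the same `sig b`, `phi m b` and `aLin`.  By `BlockAt.ricci_eq` and `ricci_block_le` for `G'`:
`trace (aLin G w₀ z₀ v) + ricci (blockW) v v ≤ ricci (blockW) v v - hess (sig) (blockW) v v - (1/2) (d sig v)^2`.
Now follow the proof of `local_psc` (from the comment on the relation between σ and φ on): `e' i = exp (φ z₀) • e i` is orthonormal for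
`blockW G w₀ z₀`; the hypothesis `hpos` for the frame `e'` plays the role of `hpos` there. -/
theorem lps {m : ℕ} (hm : 2 ≤ m) (hdim : m = Module.finrank ℝ W) (b : Module.Basis (Fin 2) ℝ V)
    (h : SplitAt G w₀ z₀)
    (hpos : ∀ e : Fin m → W, IsOrtho (blockW G w₀ z₀) e →
      0 < ∑ i, (LinearMap.trace ℝ V (aLin G w₀ z₀ (e i)) + ricci (blockW G w₀) z₀ (e i) (e i)))
    (e : Fin m → W) (he : IsOrtho (conf (phi m b G w₀) (blockW G w₀) z₀) e) :
    0 < ∑ i, ricci (conf (phi m b G w₀) (blockW G w₀)) z₀ (e i) (e i) := by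
  sorry

section manifold

variable {E₁ E₂ : Type*} [NormedAddCommGroup E₁] [NormedSpace ℝ E₁] [FiniteDimensional ℝ E₁]
  [NormedAddCommGroup E₂] [NormedSpace ℝ E₂] [FiniteDimensional ℝ E₂]
  {H₁ H₂ : Type*} [TopologicalSpace H₁] [TopologicalSpace H₂]
  {I : ModelWithCorners ℝ E₁ H₁} {J : ModelWithCorners ℝ E₂ H₂} [I.Boundaryless] [J.Boundaryless]
  {M N : Type*} [TopologicalSpace M] [TopologicalSpace N]
  [ChartedSpace H₁ M] [IsManifold I 1 M] [ChartedSpace H₂ N] [IsManifold J 1 N]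

/-- MODULE MPT (positivity at one point of the manifold).  `newForm m b g x` (see `ProdMan.lean`) is the form
`exp (2 ψ) •` (restriction of `g` to the slice `{x} × N`), `ψ = log (det2 b (fibreForm g x y)) / (4 (m-1))`.
Uses LOC, LPS as hypotheses (for `V = E₁`, `W = E₂`).  `d i` is any frame of `E₂ = T_y N`, e.g. the standard basis;
`hmin` says that the Gram determinant of the slice in this frame is locally minimal at `x` among the slices.
PROOF.  Let `G = inChart (I.prod J) g.form (x,y)`, `w₀ = extChartAt I x x`, `z₀ = extChartAt J y y`.  `SplitAt G w₀ z₀`: as the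
first two parts of `block_chart` in `ProdMan.lean`.  By `newForm_chart` and the end of the proof of `slices_psc` (copy) it
suffices to apply `lps`; its hypothesis: for `e` orthonormal for `blockW G w₀ z₀`, the frame `(0, e i)` is orthonormal
for `G (w₀,z₀)`, so `hR` gives `0 < ∑ i, ricci G (w₀,z₀) (0,e i) (0,e i)`, and then `loc`.  The local minimum needed by `loc`:
for `w` near `w₀`, `G (w,z₀) (0,a) (0,a') = g.form.at ((extChartAt I x).symm w, y) (0,a) (0,a')` (`inChart_prod_apply`,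
`dsymm_self`, `extChartAt_to_inv`), and if `e i = ∑ j, c i j • d j` then the Gram determinant of `e` is
`(det c)^2` times the Gram determinant of `d` (`Matrix.det_mul`, `Matrix.det_transpose`), `c` exists because `d` is a basis;
compose the local minimum in `M` with the continuous map `(extChartAt I x).symm` (`IsLocalMin` through
`continuousAt_extChartAt_symm`, `ContinuousAt.eventually`/`Tendsto.eventually`). -/
theorem mpt {m : ℕ} (hm : 2 ≤ m) (hdim : m = Module.finrank ℝ E₂)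
    (b : Module.Basis (Fin 2) ℝ E₁)
    (loc : ∀ (G : E₁ × E₂ → (E₁ × E₂) →L[ℝ] (E₁ × E₂) →L[ℝ] ℝ) (w₀ : E₁) (z₀ : E₂),
      SplitAt G w₀ z₀ → ∀ e : Fin m → E₂, IsOrtho (blockW G w₀ z₀) e →
      IsLocalMin (fun w => (Matrix.of fun i j => G (w, z₀) (0, e i) (0, e j)).det) w₀ →
      ∑ i, ricci G (w₀, z₀) (0, e i) (0, e i) ≤
        ∑ i, (LinearMap.trace ℝ E₁ (aLin G w₀ z₀ (e i)) + ricci (blockW G w₀) z₀ (e i) (e i)))
    (lps : ∀ (G : E₁ × E₂ → (E₁ × E₂) →L[ℝ] (E₁ × E₂) →L[ℝ] ℝ) (w₀ : E₁) (z₀ : E₂),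
      SplitAt G w₀ z₀ → (∀ e : Fin m → E₂, IsOrtho (blockW G w₀ z₀) e →
        0 < ∑ i, (LinearMap.trace ℝ E₁ (aLin G w₀ z₀ (e i)) + ricci (blockW G w₀) z₀ (e i) (e i))) →
      ∀ e : Fin m → E₂, IsOrtho (conf (phi m b G w₀) (blockW G w₀) z₀) e →
      0 < ∑ i, ricci (conf (phi m b G w₀) (blockW G w₀)) z₀ (e i) (e i))
    (g : RMetric (I.prod J) (M × N)) (ho : OrthSlices g) (hR : KPosRicci m g)
    (x : M) (y : N) (d : Module.Basis (Fin m) ℝ E₂)
    (hmin : IsLocalMin (fun x' => (Matrix.of fun i j =>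
      sliceForm g x' y (d i) (d j)).det) x) :
    ∀ e : Fin m → E₂, IsOrtho (inChart J (newForm m b g x) y (extChartAt J y y)) e →
      0 < ∑ i, ricci (inChart J (newForm m b g x) y) (extChartAt J y y) (e i) (e i) := by
  sorry

/-- MODULE NFM (the conformally changed slice is a smooth metric).  PROOF.  The parts `symm`, `pos`, `smooth` of the proof of
`slices_psc` in `ProdMan.lean`, with `SplitAt` instead of `BlockAt` (for the smoothness of `sig` apply `contDiffAt_sig`
to `freeze G w₀`, see `SplitAt.freeze`, `blockV_freeze`, or use `det2_pos` directly). -/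
theorem nfm (m : ℕ) (b : Module.Basis (Fin 2) ℝ E₁) (g : RMetric (I.prod J) (M × N))
    (ho : OrthSlices g) (x₀ : M) :
    ∃ h : RMetric J N, h.form = newForm m b g x₀ := by
  sorry

end manifold

end Pool.Agent.Helper65.SL
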