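import Mathlib
import Pool.Agent.Helper65.SL.Base

/-!
# Project SL, part (ii): pairwise conformal slices

THEOREM (target 2).  Let `N` be closed, `g = γ_y + ρ(x,y) h₀` a metric on `S² × N` (`γ_y` any family of metrics on `S²`),
`A(x,y)` the squared area density of `γ_y`, and suppose `A ρ^κ = α(x) β(y)` for some `κ ≤ 2 (m-1)`.  If `Ric > 0` (or only
`m`-positive) then `N` admits a metric of positive scalar curvature.

Idea: with `Θ(x,y) = c₁ log ρ(x,y) + B(y)`, `c₁ ≥ 0`, the scalar curvature of `exp (2 Θ(x,·)) h₀` is positive at `y` whenever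
`ρ(·,y)` is minimal at `x` (part (i)); a soft minimum `u = -(1/k) log ∑_j exp (-k Θ(x_j,·))` over a fine finite set of
slices gives the metric `exp (2 u) h₀` of positive scalar curvature.
-/

set_option maxSynthPendingDepth 3
set_option linter.unusedSectionVars false
set_option linter.deprecated false
set_option linter.unusedVariables false

namespace Pool.Agent.Helper65.SL

open Filter Topology
open scoped ContDiff Manifold
open Pool.Agent.Helper23.Ric

section coordinates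

variable {E : Type*} [NormedAddCommGroup E] [NormedSpace ℝ E] [FiniteDimensional ℝ E]
variable {G : E → E →L[ℝ] E →L[ℝ] ℝ} {ψ : E → E} {z : E}

/-- MODULE ONF (orthonormal frames exist).  PROOF.  Gram-Schmidt.  By induction on `finrank E` or: make `E` an inner product
space with inner product `B` (`InnerProductSpace.Core`) and take `stdOrthonormalBasis`; or use
`LinearMap.BilinForm.exists_orthogonal_basis` for the symmetric form `B` and divide each basis vector `b i` by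
`sqrt (B (b i) (b i)) > 0`. -/
theorem onf {B : E →L[ℝ] E →L[ℝ] ℝ} (hs : ∀ v w, B v w = B w v) (hp : ∀ v, v ≠ 0 → 0 < B v v)
    {m : ℕ} (hm : m = Module.finrank ℝ E) : ∃ e : Fin m → E, IsOrtho B e := by
  sorry

/-- MODULE CHI (Christoffel symbols in other coordinates).  `pull ψ G y = (G (ψ y)).bilinearComp (Dψ_y) (Dψ_y)`.
PROOF.  `GoodAt`: `fderiv ℝ ψ` is `C²` at `z`, so `pull ψ G` is `C²` (compositions of continuous linear maps, flips, as
in `contDiffAt_bilin` of `Base.lean`); symmetry is clear; positivity near `z` because `fderiv ℝ ψ y` is injective for `y`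
near `z` (injective = invertible in finite dimension, an open condition: `ContinuousLinearEquiv.nhds`).
Formula: let `A = fderiv ℝ ψ z`, `D = fderiv ℝ (fderiv ℝ ψ) z` (symmetric by `ContDiffAt.isSymmSndFDerivAt`).  The derivative
of `pull ψ G` is `∂_u (pull ψ G)(v,w) = (∂_(A u) G)(A v, A w) + G (D u v) (A w) + G (A v) (D u w)`.  Hence
`∂_v(w,u) + ∂_w(v,u) - ∂_u(v,w) = [the same for G with A v, A w, A u] + 2 G (D v w) (A u)`.  Let `x` be the vector with
`A x = chris G (ψ z) (A v) (A w) + D v w` (`A` is surjective); then `pull ψ G z x u = G (ψ z) (A x) (A u)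
= (∂_v(w,u) + ∂_w(v,u) - ∂_u(v,w)) / 2`, so `x = chris (pull ψ G) z v w` by `chris_unique`. -/
theorem chi (hψ : ContDiffAt ℝ 3 ψ z) (hinj : Function.Injective (fderiv ℝ ψ z))
    (h : GoodAt G (ψ z)) :
    GoodAt (pull ψ G) z ∧ ∀ v w, fderiv ℝ ψ z (chris (pull ψ G) z v w) =
      chris G (ψ z) (fderiv ℝ ψ z v) (fderiv ℝ ψ z w) + fderiv ℝ (fderiv ℝ ψ) z v w := by
  sorry

/-- MODULE INV (the Ricci curvature in other coordinates).  Uses CHI as a hypothesis.  PROOF.  Write `Γ' = chris (pull ψ G)`,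
`Γ = chris G`, `A_y = fderiv ℝ ψ y`, `D_y = fderiv ℝ (fderiv ℝ ψ) y`.  CHI holds at all `y` near `z`
(`hψ` and injectivity are open conditions, `GoodAt` too: `GoodAt.eventually` composed with the continuity of `ψ`):
`A_y (Γ'_y(v,w)) = Γ_{ψ y}(A_y v, A_y w) + D_y v w`.  Differentiate at `z` in the direction `u`:
`D u (Γ'(v,w)) + A (∂_u Γ'(v,w)) = (∂_{A u} Γ)(A v, A w) + Γ(D u v, A w) + Γ(A v, D u w) + T u v w`, `T` the third derivative.
(`Γ_y(a,b)` is bilinear in `a, b` and, as a function of `(y,a,b)`, differentiable: write it as `∑ i j a_i b_j Γ_y(b_i,b_j)` in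
a basis, or use the formula for `chris` with `ContinuousLinearMap`s.)  Subtract the same with `u, v` exchanged: `T u v w` and
`Γ(D u v, A w)` cancel (`D`, `T` symmetric), so
`A (∂_u Γ'(v,w) - ∂_v Γ'(u,w)) = (∂_{Au} Γ)(Av,Aw) - (∂_{Av} Γ)(Au,Aw) + Γ(Av, D u w) - Γ(Au, D v w) - D u (Γ'(v,w)) + D v (Γ'(u,w))`.
And `A Γ'(u, Γ'(v,w)) = Γ(A u, A Γ'(v,w)) + D u (Γ'(v,w)) = Γ(Au, Γ(Av,Aw)) + Γ(Au, D v w) + D u (Γ'(v,w))`.  Adding up:
`A (riem (pull ψ G) z u v w) = riem G (ψ z) (A u) (A v) (A w)`.  The traces of `u ↦ R'(u,v)v = A⁻¹ R(Au,Av)Av` and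
`u ↦ R(u,Av)Av` agree (`ricci_eq_trace`, `LinearMap.trace_conj'`). -/
theorem inv
    (chi : ∀ {ψ : E → E} {z : E} (hψ : ContDiffAt ℝ 3 ψ z) (hinj : Function.Injective (fderiv ℝ ψ z))
      (h : GoodAt G (ψ z)),
      GoodAt (pull ψ G) z ∧ ∀ v w, fderiv ℝ ψ z (chris (pull ψ G) z v w) =
        chris G (ψ z) (fderiv ℝ ψ z v) (fderiv ℝ ψ z w) + fderiv ℝ (fderiv ℝ ψ) z v w)
    (hψ : ContDiffAt ℝ 3 ψ z) (hinj : Function.Injective (fderiv ℝ ψ z))
    (h : GoodAt G (ψ z)) (v : E) :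
    ricci (pull ψ G) z v v = ricci G (ψ z) (fderiv ℝ ψ z v) (fderiv ℝ ψ z v) := by
  sorry

/-- MODULE PFI (the functional `pf` in other coordinates).  Uses CHI and the conclusion of INV as hypotheses.
PROOF.  `fderiv (θ ∘ ψ) z v = fderiv θ (ψ z) (A v)`, `A = fderiv ℝ ψ z`;
`fderiv (fderiv (θ ∘ ψ)) z u v = fderiv (fderiv θ) (ψ z) (A u) (A v) + fderiv θ (ψ z) (D u v)`, `D = fderiv (fderiv ψ) z`
(differentiate `fderiv (θ ∘ ψ) y v = fderiv θ (ψ y) (fderiv ψ y v)`, valid near `z`); hence with CHI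
`hess (θ ∘ ψ) (pull ψ G) z u v = hess θ G (ψ z) (A u) (A v)`.  Sum over the frame. -/
theorem pfi
    (chi : GoodAt (pull ψ G) z ∧ ∀ v w, fderiv ℝ ψ z (chris (pull ψ G) z v w) =
        chris G (ψ z) (fderiv ℝ ψ z v) (fderiv ℝ ψ z w) + fderiv ℝ (fderiv ℝ ψ) z v w)
    (inv : ∀ v, ricci (pull ψ G) z v v = ricci G (ψ z) (fderiv ℝ ψ z v) (fderiv ℝ ψ z v))
    (hψ : ContDiffAt ℝ 3 ψ z) (h : GoodAt G (ψ z)) {θ : E → ℝ} (hθ : ContDiffAt ℝ 2 θ (ψ z))
    (m : ℕ) (e : Fin m → E) :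
    pf m (fun y => θ (ψ y)) (pull ψ G) z e = pf m θ G (ψ z) (fun i => fderiv ℝ ψ z (e i)) := by
  sorry

/-- MODULE TRC (joint continuity of `pf`).  PROOF.  Let `b = Module.finBasis ℝ E`, `b* l` its coordinates as continuous
linear forms.  For `p = (w,y)` put `B_p(u,v) = ricci G y u v - 2 (m-1) hess (θ w) G y u v - (m-1)(m-2) dθ_w(u) dθ_w(v)`, and
`T p = ∑ k, ∑ l, B_p(b k, b l) * b.coord k ((G y).inverse (b* l))`.  For `p` near `(w₁,z₁)` `B_p` is bilinear (`chris` is bilinear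
by `chris_add_left` etc., and `chris G · v w` is differentiable at `y`, `differentiableAt_chris`), so `T p` is the trace of the
endomorphism `u ↦ (G y).inverse (B_p(u,·))`, and for an orthonormal frame `e` of `G y` this trace is
`∑ i, G y ((G y).inverse (B_p(e i,·))) (e i) = ∑ i, B_p(e i, e i)` (`trace_ortho`, `inv_apply`), which is `pf m (θ w) G y e`.
Continuity of `T` at `(w₁,z₁)`: `(G y).inverse` is continuous (`contDiffAt_inverse`); `ricci G y u v` is a finite sum of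
coordinates of `fderiv (chris G · ..) y` and of `chris`, continuous near `z₁` because `chris G · v w` is `C¹` (`contDiffAt_chris`);
for `F p = θ p.1 p.2`, which is `C²` near `(w₁,z₁)`, `fderiv (θ w) y v = fderiv F (w,y) (0,v)` and
`fderiv (fderiv (θ w)) y u v = fderiv (fderiv F) (w,y) (0,u) (0,v)`, continuous in `p`. -/
theorem trc {E₁ : Type*} [NormedAddCommGroup E₁] [NormedSpace ℝ E₁] [FiniteDimensional ℝ E₁]
    {m : ℕ} (hm : m = Module.finrank ℝ E) {θ : E₁ → E → ℝ} {w₁ : E₁} {z₁ : E}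
    (hG : GoodAt G z₁) (hθ : ContDiffAt ℝ 2 (fun p : E₁ × E => θ p.1 p.2) (w₁, z₁)) :
    ∃ T : E₁ × E → ℝ, ContinuousAt T (w₁, z₁) ∧
      ∀ᶠ p in 𝓝 (w₁, z₁), ∀ e : Fin m → E, IsOrtho (G p.2) e → pf m (θ p.1) G p.2 e = T p := by
  sorry

/-- MODULE SML (the soft minimum).  PROOF.  Let `S y = ∑ j, exp (-k θ_j y) > 0`, `p j = exp (-k θ_j z) / S z`, `∑ p j = 1`,
`u = -(1/k) log S`.  Then `du = ∑ p_j dθ_j` at `z` and, for every `v`,
`D²u(v,v) = ∑ p_j D²θ_j(v,v) - k (∑ p_j (dθ_j v)^2 - (∑ p_j dθ_j v)^2)` (differentiate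
`fderiv u y v = (∑ exp(-k θ_j y) fderiv θ_j y v) / S y`).  The Christoffel term in `hess` is linear in `du`, so
`hess u v v = ∑ p_j hess θ_j v v - k Var`, `Var = ∑ p_j (dθ_j v)^2 - (∑ p_j dθ_j v)^2 ≥ 0` (Cauchy-Schwarz / Jensen), and
`(du v)^2 = ∑ p_j (dθ_j v)^2 - Var`.  So each summand of `pf u` is `∑ p_j (summand of pf θ_j) + (2 (m-1) k + (m-1)(m-2)) Var`. -/
theorem sml (h : GoodAt G z) {m n : ℕ} (hm : 2 ≤ m) (hn : 0 < n) {k : ℝ} (hk : 0 < k)
    (θ : Fin n → E → ℝ) (hθ : ∀ j, ContDiffAt ℝ 2 (θ j) z) (e : Fin m → E) :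
    ∑ j, (Real.exp (-k * θ j z) / ∑ i, Real.exp (-k * θ i z)) * pf m (θ j) G z e ≤
      pf m (fun y => -(1 / k) * Real.log (∑ j, Real.exp (-k * θ j y))) G z e := by
  sorry

/-- MODULE CNF (scalar curvature of a conformal metric).  PROOF.  This is the identity `hfinal` in the proof of `local_psc`
(`Pool/Agent/Helper23/Ric/Final.lean`): for the `G z`-orthonormal frame `e`, by `ricci_conf`, `trace_ortho`, `dgrad_spec`,
`grad_spec`: `∑ i, ricci (conf φ G) z (e i) (e i) = pf m φ G z e`, and `ricci (conf φ G) z (c • v) (c • v) = c^2 ricci ..`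
(`ricci_smul` with `conf_good`) for `c = exp (-φ z)`. -/
theorem cnf {φ : E → ℝ} (h : GoodAt G z) (hφ : ContDiffAt ℝ 2 φ z) {m : ℕ}
    (hm : m = Module.finrank ℝ E) (e : Fin m → E) (he : IsOrtho (G z) e) :
    ∑ i, ricci (conf φ G) z (Real.exp (-φ z) • e i) (Real.exp (-φ z) • e i) =
      Real.exp (-2 * φ z) * pf m φ G z e := by
  sorry

end coordinates

/-- MODULE SFC (choice of the slices; pure topology).  PROOF.  If `N` is empty take `n = 1`, `k = 1`.  `X × N` is compact.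
Let `K` be the closed set of `(x,y)` with `Θ x y ≤ Θ x' y` for all `x'`; `P > 0` on the compact set `K`, so `P > δ > 0` on `K`
for some `δ` (`K` nonempty: a continuous function on compact `X` has a minimum).  The closed sets
`C_ε = {(x,y) : P x y ≤ δ, ∀ x', Θ x y ≤ Θ x' y + ε}` decrease as `ε → 0` and have empty intersection, so `C_ε = ∅` for some
`ε > 0`.  Let `P ≥ -C` on `X × N`, `C > 0`.  The map `X → C(N, ℝ)`, `x ↦ Θ x` is continuous (`ContinuousMap.curry`), its image is compact,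
so there are `x_1, ..., x_n` such that every `Θ x` is within `ε/2` of some `Θ x_j` in the sup norm.  Given `y` let `μ = min_x Θ x y`
(attained), `j*` with `Θ x_{j*} y ≤ μ + ε/2`; `S = ∑ exp (-k Θ x_i y) ≥ exp (-k (μ + ε/2))`.  If `Θ x_j y ≤ μ + ε` then `P x_j y > δ`
(as `C_ε = ∅`); otherwise the weight of `j` is at most `exp (-k ε/2)`.  So the sum is `≥ δ (1 - n q) - C n q` with
`q = exp (-k ε/2)` (weights are `≥ 0` with sum `1`), positive if `k` is large (`k` depends on `δ, C, n, ε` only). -/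
theorem sfc {X N : Type*} [TopologicalSpace X] [CompactSpace X] [Nonempty X] [TopologicalSpace N]
    [CompactSpace N] (Θ P : X → N → ℝ) (hΘ : Continuous fun p : X × N => Θ p.1 p.2)
    (hP : Continuous fun p : X × N => P p.1 p.2)
    (hpos : ∀ x y, (∀ x', Θ x y ≤ Θ x' y) → 0 < P x y) :
    ∃ (n : ℕ) (x : Fin n → X) (k : ℝ), 0 < n ∧ 0 < k ∧ ∀ y,
      0 < ∑ j, (Real.exp (-k * Θ (x j) y) / ∑ i, Real.exp (-k * Θ (x i) y)) * P (x j) y := by
  sorry

section manifold

variable {E₁ E₂ : Type*} [NormedAddCommGroup E₁] [NormedSpace ℝ E₁] [FiniteDimensional ℝ E₁]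
  [NormedAddCommGroup E₂] [NormedSpace ℝ E₂] [FiniteDimensional ℝ E₂]
  {H₁ H₂ : Type*} [TopologicalSpace H₁] [TopologicalSpace H₂]
  {I : ModelWithCorners ℝ E₁ H₁} {J : ModelWithCorners ℝ E₂ H₂} [I.Boundaryless] [J.Boundaryless]
  {M N : Type*} [TopologicalSpace M] [TopologicalSpace N]
  [ChartedSpace H₁ M] [IsManifold I ∞ M] [ChartedSpace H₂ N] [IsManifold J ∞ N]

/-- MODULE TRS (change of charts).  `J` is boundaryless.  PROOF.  `ψ = extChartAt J y₁ ∘ (extChartAt J y).symm`, `z = extChartAt J y y`.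
Smoothness: `contDiffWithinAt_extChartAt_symm`-type lemmas / `contDiffOn_ext_coord_change` (range of `J` is everything,
`J.range_eq_univ`); `ψ z = extChartAt J y₁ y` by `extChartAt_to_inv`; `(extChartAt J y₁).symm (ψ z') = (extChartAt J y).symm z'` for `z'`
near `z`, because `(extChartAt J y).symm z'` is near `y`, which lies in the open source of the chart at `y₁`
(`(extChartAt J y₁).left_inv`).  Injectivity of the derivative: the map `ψ' = extChartAt J y ∘ (extChartAt J y₁).symm` is smooth at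
`ψ z` and `ψ' ∘ ψ = id` near `z`, so `fderiv ψ' (ψ z) ∘ fderiv ψ z = id`.  Last statement: for `z'` near `z`,
`(extChartAt J y).symm = (extChartAt J y₁).symm ∘ ψ` near `z'`, so by the chain rule (`mfderiv_comp`, `mfderiv_eq_fderiv`,
`mdiff_symm` of `Man.lean`) `dsymm J y z' = (dsymm J y₁ (ψ z')).comp (fderiv ℝ ψ z')`, and `inChart_eq` gives
`inChart J h.form y z' = pull ψ (inChart J h.form y₁) z'`. -/
theorem trs (h : RMetric J N) (y₁ y : N) (hy : y ∈ (chartAt H₂ y₁).source) :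
    ∃ ψ : E₂ → E₂, ContDiffAt ℝ 3 ψ (extChartAt J y y) ∧
      ψ (extChartAt J y y) = extChartAt J y₁ y ∧
      Function.Injective (fderiv ℝ ψ (extChartAt J y y)) ∧
      (∀ᶠ z in 𝓝 (extChartAt J y y), (extChartAt J y).symm z = (extChartAt J y₁).symm (ψ z)) ∧
      inChart J h.form y =ᶠ[𝓝 (extChartAt J y y)] pull ψ (inChart J h.form y₁) := by
  sorry

/-- MODULE PCN (the functional `pf` is a continuous function on `M × N`).  Uses ONF, TRC, PFI (with its hypotheses discharged) and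
TRS as hypotheses.  PROOF.  For `(x,y)` let `T_{x,y}` be the function of TRC for `G = inChart J h.form y`,
`θ w z = Θ ((extChartAt I x).symm w) ((extChartAt J y).symm z)` at the centre `c(x,y) = (extChartAt I x x, extChartAt J y y)`;
put `P x y = T_{x,y} (c(x,y))`.  By TRC at the centre itself (`Eventually.self_of_nhds`; `(extChartAt I x).symm (extChartAt I x x) = x`)
the second claim holds.  Continuity at `(x₁,y₁)`: the function `(x,y) ↦ T_{x₁,y₁} (extChartAt I x₁ x, extChartAt J y₁ y)` is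
continuous at `(x₁,y₁)` (`continuousAt_extChartAt`), and it equals `P x y` for `(x,y)` near `(x₁,y₁)`: take `ψ` from TRS, an orthonormal
frame `e` of `inChart J h.form y (extChartAt J y y)` (ONF; symmetric and positive by `goodAt_chart`), then
`P x y = pf (Θ x ∘ (extChartAt J y).symm) (inChart y) (extChartAt J y y) e = pf (Θ x ∘ (extChartAt J y₁).symm ∘ ψ) (pull ψ (inChart y₁)) .. e`
(`pf` depends only on the germs: `Filter.EventuallyEq.fderiv_eq`; see the end of `slices_psc` for `ricci`)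
`= pf (Θ x ∘ (extChartAt J y₁).symm) (inChart y₁) (extChartAt J y₁ y) (fderiv ψ ∘ e)` by PFI, the frame `fderiv ψ ∘ e` is orthonormal for
`inChart y₁ (extChartAt J y₁ y)`, so this is `T_{x₁,y₁}(extChartAt I x₁ x, extChartAt J y₁ y)`, as
`(extChartAt I x₁).symm (extChartAt I x₁ x) = x` for `x` near `x₁`.  (`GoodAt (inChart y₁)` holds near the centre by
`GoodAt.eventually`; and `Θ x ∘ (extChartAt J y₁).symm` is `C²` at `extChartAt J y₁ y` because `hΘ` at `(x₁,y₁)` holds near the centre.)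
The continuity of `Θ` itself follows in the same way from `hΘ` (`ContDiffAt.continuousAt`). -/
theorem pcn {m : ℕ} (hm : m = Module.finrank ℝ E₂)
    (onf : ∀ {B : E₂ →L[ℝ] E₂ →L[ℝ] ℝ}, (∀ v w, B v w = B w v) → (∀ v, v ≠ 0 → 0 < B v v) →
      ∃ e : Fin m → E₂, IsOrtho B e)
    (trc : ∀ {G : E₂ → E₂ →L[ℝ] E₂ →L[ℝ] ℝ} {θ : E₁ → E₂ → ℝ} {w₁ : E₁} {z₁ : E₂},
      GoodAt G z₁ → ContDiffAt ℝ 2 (fun p : E₁ × E₂ => θ p.1 p.2) (w₁, z₁) →
      ∃ T : E₁ × E₂ → ℝ, ContinuousAt T (w₁, z₁) ∧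
        ∀ᶠ p in 𝓝 (w₁, z₁), ∀ e : Fin m → E₂, IsOrtho (G p.2) e → pf m (θ p.1) G p.2 e = T p)
    (pfi : ∀ {G : E₂ → E₂ →L[ℝ] E₂ →L[ℝ] ℝ} {ψ : E₂ → E₂} {z : E₂} {θ : E₂ → ℝ},
      ContDiffAt ℝ 3 ψ z → Function.Injective (fderiv ℝ ψ z) → GoodAt G (ψ z) →
      ContDiffAt ℝ 2 θ (ψ z) → ∀ e : Fin m → E₂,
      pf m (fun y => θ (ψ y)) (pull ψ G) z e = pf m θ G (ψ z) (fun i => fderiv ℝ ψ z (e i)))
    (trs : ∀ (h : RMetric J N) (y₁ y : N), y ∈ (chartAt H₂ y₁).source →
      ∃ ψ : E₂ → E₂, ContDiffAt ℝ 3 ψ (extChartAt J y y) ∧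
        ψ (extChartAt J y y) = extChartAt J y₁ y ∧
        Function.Injective (fderiv ℝ ψ (extChartAt J y y)) ∧
        (∀ᶠ z in 𝓝 (extChartAt J y y), (extChartAt J y).symm z = (extChartAt J y₁).symm (ψ z)) ∧
        inChart J h.form y =ᶠ[𝓝 (extChartAt J y y)] pull ψ (inChart J h.form y₁))
    (h : RMetric J N) (Θ : M → N → ℝ)
    (hΘ : ∀ x y, ContDiffAt ℝ 2 (fun p : E₁ × E₂ =>
      Θ ((extChartAt I x).symm p.1) ((extChartAt J y).symm p.2)) (extChartAt I x x, extChartAt J y y)) :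
    Continuous (fun p : M × N => Θ p.1 p.2) ∧
    ∃ P : M → N → ℝ, Continuous (fun p : M × N => P p.1 p.2) ∧
      ∀ x y (e : Fin m → E₂), IsOrtho (inChart J h.form y (extChartAt J y y)) e →
        pf m (fun z => Θ x ((extChartAt J y).symm z)) (inChart J h.form y) (extChartAt J y y) e
          = P x y := by
  sorry

/-- MODULE RAT (the factor `ρ` is positive and smooth).  PROOF.  `E₂` has a nonzero vector `v` (`0 < finrank`).  Positivity:
`ρ x y * h₀(v,v) = g((0,v),(0,v)) > 0`.  Smoothness at `(x,y)`: for `p = (w,z)` near the centre, with `x' = (extChartAt I x).symm w`,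
`y' = (extChartAt J y).symm z`, by `inChart_prod_apply`
`inChart (I.prod J) g.form (x,y) (w,z) (0,v) (0,v) = g.form.at (x',y') (0, dsymm J y z v) (0, dsymm J y z v) =
ρ x' y' * inChart J h₀.form y z v v`, and the last factor is positive near the centre; so `ρ x' y'` is a quotient of two functions smooth at
the centre (`g.smooth (x,y)` with `prod_self`; `h₀.smooth y` composed with the projection `p ↦ p.2`). -/
theorem rat (hd : 0 < Module.finrank ℝ E₂) (g : RMetric (I.prod J) (M × N)) (h₀ : RMetric J N)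
    (ρ : M → N → ℝ) (hρ : ∀ x y, sliceForm g x y = ρ x y • h₀.form.at y) :
    (∀ x y, 0 < ρ x y) ∧
    ∀ x y, ContDiffAt ℝ ∞ (fun p : E₁ × E₂ =>
      ρ ((extChartAt I x).symm p.1) ((extChartAt J y).symm p.2)) (extChartAt I x x, extChartAt J y y) := by
  sorry

/-- MODULE FAC (the factor `Θ`).  Uses RAT as hypotheses `hpos`, `hsm`.  PROOF.  Let `A x y = det2 b (fibreForm g x y) > 0`
(`det2_pos`, the form is positive definite), `c = 1/(4 (m-1))`, fix `x₀` (if `M` is empty everything is trivial: take `Θ` with empty domain).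
From `hA`: `α x ≠ 0`, `β y ≠ 0`, and `log A(x,y) + κ log ρ(x,y) = log |α x| + log |β y|` (`Real.log_mul`, `Real.log_rpow`; `Real.log` of a negative
number is the log of its absolute value, so simply `Real.log (α x * β y) = Real.log (α x) + Real.log (β y)`).  Put
`B y = c (log A(x₀,y) + κ log ρ(x₀,y))`, `Θ x y = (1/2 - κ c) log ρ(x,y) + B y`, `lam x = c (log α x - log α x₀)`.  Then
`(1/2) log ρ(x,y) + psi m b g x y = Θ x y + lam x` (`psi m b g x y = c log A(x,y)`), and so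
`newForm m b g x y = exp (2 psi) • sliceForm g x y = exp (2 psi) ρ • h₀ = exp (2 (Θ x y + lam x)) • h₀.form.at y`.
Smoothness of `Θ` at a centre: `ρ` is smooth and positive (`hsm`, `ContDiffAt.log`); `B` in the chart at `y`: `ρ(x₀, ·)` by `hsm` at `(x₀,y)` restricted to
`w = extChartAt I x₀ x₀`; `A(x₀, (extChartAt J y).symm z) = det2 b (blockV (inChart (I.prod J) g.form (x₀,y)) (extChartAt I x₀ x₀) z)` for `z` near the
centre (`hV` in `newForm_chart`), smooth by `contDiffAt_block` and `contDiffAt_det2`-type arguments. -/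
theorem fac {m : ℕ} (hm : 2 ≤ m) (b : Module.Basis (Fin 2) ℝ E₁)
    (g : RMetric (I.prod J) (M × N)) (ho : OrthSlices g) (h₀ : RMetric J N)
    (ρ : M → N → ℝ) (hρ : ∀ x y, sliceForm g x y = ρ x y • h₀.form.at y)
    (hpos : ∀ x y, 0 < ρ x y)
    (hsm : ∀ x y, ContDiffAt ℝ ∞ (fun p : E₁ × E₂ =>
      ρ ((extChartAt I x).symm p.1) ((extChartAt J y).symm p.2)) (extChartAt I x x, extChartAt J y y))
    (κ : ℝ) (hκ : κ ≤ 2 * ((m : ℝ) - 1)) (α : M → ℝ) (β : N → ℝ)
    (hA : ∀ x y, det2 b (fibreForm g x y) * ρ x y ^ κ = α x * β y) :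
    ∃ (Θ : M → N → ℝ) (lam : M → ℝ) (c₁ : ℝ) (B : N → ℝ), 0 ≤ c₁ ∧
      (∀ x y, Θ x y = c₁ * Real.log (ρ x y) + B y) ∧
      (∀ x y, newForm m b g x y = Real.exp (2 * (Θ x y + lam x)) • h₀.form.at y) ∧
      ∀ x y, ContDiffAt ℝ ∞ (fun p : E₁ × E₂ =>
        Θ ((extChartAt I x).symm p.1) ((extChartAt J y).symm p.2))
        (extChartAt I x x, extChartAt J y y) := by
  sorry

/-- MODULE PPS (positivity of `pf` at the minimal slices).  Uses MPT (part (i)) as hypothesis `mpt` and CNF as hypothesis.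
PROOF.  Case `0 < c₁`: `Θ x y ≤ Θ x' y` for all `x'` gives `ρ x y ≤ ρ x' y` for all `x'`; if `c₁ = 0` choose by compactness
of `M` (`ρ · y` is continuous: `hsm`) a point `x'` where `ρ · y` is minimal; `Θ x' = Θ x` as functions on `N` (both are `B`), so it suffices to
treat the point `x'`.  So assume `ρ x y ≤ ρ x' y` for all `x'`.  Then for `d` the basis `Module.finBasis ℝ E₂` (reindexed by `Fin m`)
`det (sliceForm g x' y (d i) (d j)) = (ρ x' y)^m det (h₀ (d i) (d j))`, with `det (h₀ (d i) (d j)) ≥ 0` (it is positive: Gram determinant;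
`≥ 0` suffices and follows e.g. from `Matrix.PosSemidef`), so this determinant is minimal at `x` and `mpt` applies:
`0 < ∑ i, ricci (inChart J (newForm m b g x) y) z (e' i) (e' i)` for frames `e'` orthonormal for `inChart J (newForm m b g x) y z`,
`z = extChartAt J y y`.  Near `z`, `inChart J (newForm m b g x) y = conf φ (inChart J h₀.form y)` with
`φ z' = Θ x ((extChartAt J y).symm z') + lam x` (`inChart_eq`, `hform`).  Apply CNF with the frame `e`: `e' i = exp (-φ z) • e i` is orthonormal for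
`conf φ G z`; so `0 < exp (-2 φ z) * pf m φ G z e`, and `pf m φ G z e = pf m (Θ x ∘ ..) G z e` since `φ` differs from it by the constant
`lam x` (`fderiv_add_const`, germs). -/
theorem pps [CompactSpace M] {m : ℕ} (hm : 2 ≤ m) (hdim : m = Module.finrank ℝ E₂)
    (b : Module.Basis (Fin 2) ℝ E₁)
    (cnf : ∀ {G : E₂ → E₂ →L[ℝ] E₂ →L[ℝ] ℝ} {z : E₂} {φ : E₂ → ℝ}, GoodAt G z → ContDiffAt ℝ 2 φ z →
      ∀ e : Fin m → E₂, IsOrtho (G z) e →
      ∑ i, ricci (conf φ G) z (Real.exp (-φ z) • e i) (Real.exp (-φ z) • e i) =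
        Real.exp (-2 * φ z) * pf m φ G z e)
    (g : RMetric (I.prod J) (M × N)) (h₀ : RMetric J N)
    (ρ : M → N → ℝ) (hρ : ∀ x y, sliceForm g x y = ρ x y • h₀.form.at y)
    (hpos : ∀ x y, 0 < ρ x y)
    (hsm : ∀ x y, ContDiffAt ℝ ∞ (fun p : E₁ × E₂ =>
      ρ ((extChartAt I x).symm p.1) ((extChartAt J y).symm p.2)) (extChartAt I x x, extChartAt J y y))
    (mpt : ∀ (x : M) (y : N) (d : Module.Basis (Fin m) ℝ E₂),
      IsLocalMin (fun x' => (Matrix.of fun i j => sliceForm g x' y (d i) (d j)).det) x →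
      ∀ e : Fin m → E₂, IsOrtho (inChart J (newForm m b g x) y (extChartAt J y y)) e →
      0 < ∑ i, ricci (inChart J (newForm m b g x) y) (extChartAt J y y) (e i) (e i))
    (Θ : M → N → ℝ) (lam : M → ℝ) (c₁ : ℝ) (hc₁ : 0 ≤ c₁) (B : N → ℝ)
    (hΘ : ∀ x y, Θ x y = c₁ * Real.log (ρ x y) + B y)
    (hform : ∀ x y, newForm m b g x y = Real.exp (2 * (Θ x y + lam x)) • h₀.form.at y)
    (hΘs : ∀ x y, ContDiffAt ℝ ∞ (fun p : E₁ × E₂ =>
        Θ ((extChartAt I x).symm p.1) ((extChartAt J y).symm p.2))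
        (extChartAt I x x, extChartAt J y y))
    (x : M) (y : N) (hmin : ∀ x', Θ x y ≤ Θ x' y) (e : Fin m → E₂)
    (he : IsOrtho (inChart J h₀.form y (extChartAt J y y)) e) :
    0 < pf m (fun z => Θ x ((extChartAt J y).symm z)) (inChart J h₀.form y) (extChartAt J y y) e := by
  sorry

/-- MODULE FI2 (assembly).  Uses SML, CNF, SFC (applied to `Θ`, `P`: hypothesis `hsum`).  PROOF.  Let
`u y = -(1/k) log ∑ j, exp (-k Θ (x j) y)`.  In the chart at `y` the functions `z ↦ Θ (x j) ((extChartAt J y).symm z)` are smooth at the centre (`hΘs` at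
`(x j, y)` restricted to `w = extChartAt I (x j) (x j)`), so is `u ∘ (extChartAt J y).symm` (`ContDiffAt.log`, the sum of exponentials is positive).
The metric: `form y = exp (2 u y) • h₀.form y` (a form on `TangentSpace J y`), symmetric, positive, and in the chart
`inChart J form y = conf (u ∘ (extChartAt J y).symm) (inChart J h₀.form y)` (everywhere), smooth.  `KPosRicci m`: let `e` be orthonormal for
`conf ũ G z`, `G = inChart J h₀.form y`, `z = extChartAt J y y`, `ũ = u ∘ (extChartAt J y).symm`; then `e₀ i = exp (ũ z) • e i` is orthonormal for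
`G z` and `e i = exp (-ũ z) • e₀ i`, so by CNF the sum of the Ricci curvatures is `exp (-2 ũ z) * pf m ũ G z e₀`, and by SML
`pf m ũ G z e₀ ≥ ∑ j, (exp (-k Θ (x j) y) / ∑ ..) * pf m (Θ (x j) ∘ ..) G z e₀ = ∑ j, (..) * P (x j) y > 0`. -/
theorem fi2 {m : ℕ} (hm : 2 ≤ m) (hdim : m = Module.finrank ℝ E₂)
    (cnf : ∀ {G : E₂ → E₂ →L[ℝ] E₂ →L[ℝ] ℝ} {z : E₂} {φ : E₂ → ℝ}, GoodAt G z → ContDiffAt ℝ 2 φ z →
      ∀ e : Fin m → E₂, IsOrtho (G z) e →
      ∑ i, ricci (conf φ G) z (Real.exp (-φ z) • e i) (Real.exp (-φ z) • e i) =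
        Real.exp (-2 * φ z) * pf m φ G z e)
    (sml : ∀ {G : E₂ → E₂ →L[ℝ] E₂ →L[ℝ] ℝ} {z : E₂}, GoodAt G z → ∀ {n : ℕ}, 0 < n → ∀ {k : ℝ}, 0 < k →
      ∀ θ : Fin n → E₂ → ℝ, (∀ j, ContDiffAt ℝ 2 (θ j) z) → ∀ e : Fin m → E₂,
      ∑ j, (Real.exp (-k * θ j z) / ∑ i, Real.exp (-k * θ i z)) * pf m (θ j) G z e ≤
        pf m (fun y => -(1 / k) * Real.log (∑ j, Real.exp (-k * θ j y))) G z e)
    (h₀ : RMetric J N) (Θ : M → N → ℝ)
    (hΘs : ∀ x y, ContDiffAt ℝ ∞ (fun p : E₁ × E₂ =>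
        Θ ((extChartAt I x).symm p.1) ((extChartAt J y).symm p.2))
        (extChartAt I x x, extChartAt J y y))
    (P : M → N → ℝ)
    (hP : ∀ x y (e : Fin m → E₂), IsOrtho (inChart J h₀.form y (extChartAt J y y)) e →
        pf m (fun z => Θ x ((extChartAt J y).symm z)) (inChart J h₀.form y) (extChartAt J y y) e
          = P x y)
    {n : ℕ} (hn : 0 < n) (x : Fin n → M) {k : ℝ} (hk : 0 < k)
    (hsum : ∀ y, 0 < ∑ j, (Real.exp (-k * Θ (x j) y) / ∑ i, Real.exp (-k * Θ (x i) y)) * P (x j) y) :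
    ∃ h : RMetric J N, (∃ u : N → ℝ, ∀ y, h.form.at y = Real.exp (2 * u y) • h₀.form.at y) ∧
      KPosRicci m h := by
  sorry

end manifold

end Pool.Agent.Helper65.SL
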