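import Mathlib
import Pool.Agent.Helper65.SL.St
import Pool.Agent.Helper65.SL.St2

/-! Test assembly (with the statements of St, St2). -/

set_option maxSynthPendingDepth 3
set_option linter.unusedSectionVars false
set_option linter.deprecated false
set_option linter.unusedVariables false

namespace Pool.Agent.Helper65.SL

open Filter Topology
open scoped ContDiff Manifold
open Pool.Agent.Helper23.Ric
open Pool.Agent.Helper23

section gen

variable {E₁ E₂ : Type*} [NormedAddCommGroup E₁] [NormedSpace ℝ E₁] [FiniteDimensional ℝ E₁]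
  [NormedAddCommGroup E₂] [NormedSpace ℝ E₂] [FiniteDimensional ℝ E₂]
  {H₁ H₂ : Type*} [TopologicalSpace H₁] [TopologicalSpace H₂]
  {I : ModelWithCorners ℝ E₁ H₁} {J : ModelWithCorners ℝ E₂ H₂} [I.Boundaryless] [J.Boundaryless]
  {M N : Type*} [TopologicalSpace M] [TopologicalSpace N]
  [ChartedSpace H₁ M] [IsManifold I ∞ M] [ChartedSpace H₂ N] [IsManifold J ∞ N]

theorem mptF {m : ℕ} (hm : 2 ≤ m) (hdim : m = Module.finrank ℝ E₂)
    (b : Module.Basis (Fin 2) ℝ E₁)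
    (g : RMetric (I.prod J) (M × N)) (ho : OrthSlices g) (hR : KPosRicci m g)
    (x : M) (y : N) (d : Module.Basis (Fin m) ℝ E₂)
    (hmin : IsLocalMin (fun x' => (Matrix.of fun i j =>
      sliceForm g x' y (d i) (d j)).det) x) :
    ∀ e : Fin m → E₂, IsOrtho (inChart J (newForm m b g x) y (extChartAt J y y)) e →
      0 < ∑ i, ricci (inChart J (newForm m b g x) y) (extChartAt J y y) (e i) (e i) := by
  have : IsManifold I 1 M := IsManifold.of_le (n := ∞) (by simp)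
  have : IsManifold J 1 N := IsManifold.of_le (n := ∞) (by simp)
  exact mpt hm hdim b
    (fun G w₀ z₀ h e he hmn => loc (fun {m'} {F} hF h1 hmn u => jac hF h1 hmn u)
      (fun h {k m'} f hf hk e he hm v => rvs h f hf hk e he hm v)
      (fun h {k m'} f hf hk e he hm v => rws h f hf hk e he hm v) h hdim e he hmn)
    (fun G w₀ z₀ h hp e he => lps hm hdim b h hp e he) g ho hR x y d hmin

theorem main1 {m : ℕ} (hm : 2 ≤ m) (hdim : m = Module.finrank ℝ E₂)
    (h2 : Module.finrank ℝ E₁ = 2)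
    (g : RMetric (I.prod J) (M × N)) (ho : OrthSlices g) (hR : KPosRicci m g)
    (x : M) (d : Module.Basis (Fin m) ℝ E₂)
    (hmin : ∀ y, IsLocalMin (fun x' => (Matrix.of fun i j =>
      sliceForm g x' y (d i) (d j)).det) x) :
    ∃ h : RMetric J N, (∃ u : N → ℝ, ∀ y, h.form.at y = Real.exp (2 * u y) • sliceForm g x y) ∧
      KPosRicci m h := by
  have : IsManifold I 1 M := IsManifold.of_le (n := ∞) (by simp)
  have : IsManifold J 1 N := IsManifold.of_le (n := ∞) (by simp)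
  let b : Module.Basis (Fin 2) ℝ E₁ := (Module.finBasis ℝ E₁).reindex (finCongr h2)
  obtain ⟨h, hh⟩ := nfm m b g ho x
  refine ⟨h, ⟨psi m b g x, fun y => ?_⟩, fun y e he => ?_⟩
  · rw [hh]; rfl
  rw [hh] at he ⊢
  exact mptF hm hdim b g ho hR x y d (hmin y) e he

theorem main2 [CompactSpace M] [Nonempty M] [CompactSpace N] {m : ℕ} (hm : 2 ≤ m)
    (hdim : m = Module.finrank ℝ E₂)
    (b : Module.Basis (Fin 2) ℝ E₁)
    (g : RMetric (I.prod J) (M × N)) (ho : OrthSlices g) (hR : KPosRicci m g)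
    (h₀ : RMetric J N) (ρ : M → N → ℝ) (hρ : ∀ x y, sliceForm g x y = ρ x y • h₀.form.at y)
    (κ : ℝ) (hκ : κ ≤ 2 * ((m : ℝ) - 1)) (α : M → ℝ) (β : N → ℝ)
    (hA : ∀ x y, det2 b (fibreForm g x y) * ρ x y ^ κ = α x * β y) :
    ∃ h : RMetric J N, (∃ u : N → ℝ, ∀ y, h.form.at y = Real.exp (2 * u y) • h₀.form.at y) ∧
      KPosRicci m h := by
  have : IsManifold I 1 M := IsManifold.of_le (n := ∞) (by simp)
  have : IsManifold J 1 N := IsManifold.of_le (n := ∞) (by simp)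
  obtain ⟨hpos, hsm⟩ := rat (by omega) g h₀ ρ hρ
  obtain ⟨Θ, lam, c₁, B, hc₁, hΘ, hform, hΘs⟩ := fac hm b g ho h₀ ρ hρ hpos hsm κ hκ α β hA
  obtain ⟨hcΘ, P, hcP, hP⟩ := pcn hdim (fun hs hp => onf hs hp hdim) (fun hG hθ => trc hdim hG hθ)
    (fun hψ hinj h hθ e => pfi (chi hψ hinj h) (fun v => inv (fun h1 h2 h3 => chi h1 h2 h3) hψ hinj h v) hψ h hθ m e)
    (fun h y₁ y hy => trs h y₁ y hy) h₀ Θ (fun x y => (hΘs x y).of_le (by norm_cast))
  have hcnf : ∀ {G : E₂ → E₂ →L[ℝ] E₂ →L[ℝ] ℝ} {z : E₂} {φ : E₂ → ℝ}, GoodAt G z → ContDiffAt ℝ 2 φ z →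
      ∀ e : Fin m → E₂, IsOrtho (G z) e →
      ∑ i, ricci (conf φ G) z (Real.exp (-φ z) • e i) (Real.exp (-φ z) • e i) =
        Real.exp (-2 * φ z) * pf m φ G z e := fun h hφ e he => cnf h hφ hdim e he
  have hpp : ∀ x y, (∀ x', Θ x y ≤ Θ x' y) → 0 < P x y := by
    intro x y hmn
    obtain ⟨e, he⟩ := onf (B := inChart J h₀.form y (extChartAt J y y)) (goodAt_chart h₀ y).symm.self_of_nhds
      (goodAt_chart h₀ y).pos.self_of_nhds hdim
    rw [← hP x y e he]
    exact pps hm hdim b hcnf g h₀ ρ hρ hpos hsm (fun x y d hmn e he => mptF hm hdim b g ho hR x y d hmn e he)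
      Θ lam c₁ hc₁ B hΘ hform hΘs x y hmn e he
  obtain ⟨n, x, k, hn, hk, hsum⟩ := sfc Θ P hcΘ hcP hpp
  exact fi2 hm hdim hcnf (fun {G z} h {n} hn {k} hk θ hθ e => sml h hm hn hk θ hθ e) h₀ Θ hΘs P hP hn x hk hsum

end gen

end Pool.Agent.Helper65.SL
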