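import Mathlib
import Pool.Agent.Helper23.Ric.Stmt

/-! Definitions for the statements: orthogonal factors, area and volume densities of the slices of
a metric on `S² × N`. -/

namespace Pool.Agent.Helper65.SLS

open scoped ContDiff Manifold
open Pool.Agent.Helper23.RicS2

variable {m : ℕ} {N : Type*} [TopologicalSpace N] [ChartedSpace (Eucl m) N]

/-- The two factors of `S² × N` are orthogonal. -/
def OrthFactors (g : RiemSN m N) : Prop := ∀ x y u v, g.inner x y u 0 0 v = 0

/-- The `i`-th vector of the standard basis. -/
noncomputable def stdVec (n : ℕ) (i : Fin n) : Eucl n := EuclideanSpace.single i 1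

/-- The squared volume density at `y` of the slice `{x} × N`: the Gram determinant, with respect
to `g`, of the standard basis of the tangent space of `N` at `y`. -/
noncomputable def volSq (g : RiemSN m N) (x : S2) (y : N) : ℝ :=
  (Matrix.of fun i j => g.inner x y 0 (stdVec m i) 0 (stdVec m j)).det

/-- The squared area density at `x` of the slice `S² × {y}`: the Gram determinant, with respect
to `g`, of the standard basis of the tangent space of `S²` at `x`. -/
noncomputable def areaSq (g : RiemSN m N) (x : S2) (y : N) : ℝ :=
  (Matrix.of fun i j => g.inner x y (stdVec 2 i) 0 (stdVec 2 j) 0).det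

end Pool.Agent.Helper65.SLS
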