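import Mathlib
import Pool.Agent.Helper65.SL.Stmt
import Pool.Agent.Helper65.SL.Asm

set_option maxSynthPendingDepth 3
set_option linter.unusedSectionVars false
set_option linter.deprecated false
set_option linter.unusedVariables false

namespace Pool.Agent.Helper65.SLS

open Filter Topology
open scoped ContDiff Manifold
open Pool.Agent.Helper23 Pool.Agent.Helper23.RicBridge

variable {m : ℕ} {N : Type*} [TopologicalSpace N]
    [ChartedSpace (EuclideanSpace ℝ (Fin m)) N] [IsManifold (𝓡 m) ∞ N]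

theorem final1 (hm : 2 ≤ m) (g : RicS2.RiemSN m N) (ho : OrthFactors g) (x₀ : RicS2.S2)
    (hmin : ∀ y, IsLocalMin (fun x => volSq g x y) x₀)
    (hR : RicS2.PosRicSN g ∨ RicS2.KPosRicSN m g) :
    ∃ h : RicS2.RiemN m N, RicS2.PosScalN h ∧
      ∃ u : N → ℝ, ∀ y v w, h.form y v w = Real.exp (2 * u y) * g.inner x₀ y 0 v 0 w := by
  have : IsManifold (𝓡 m) 1 N := IsManifold.of_le (n := ∞) (by simp)
  have hR' : RicS2.KPosRic m g := by
    rcases hR with h | h
    · exact kPos_of_pos h (by omega)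
    · exact h
  have hfin : m = Module.finrank ℝ (EuclideanSpace ℝ (Fin m)) := by simp
  have hfin2 : Module.finrank ℝ (EuclideanSpace ℝ (Fin 2)) = 2 := by simp
  obtain ⟨h, ⟨u, hu⟩, hh⟩ := SL.main1 (I := 𝓡 2) (J := 𝓡 m) hm hfin hfin2 (toOld g)
    (fun x y u v => ho x y u v) (kpos_toOld hR') x₀
    (EuclideanSpace.basisFun (Fin m) ℝ).toBasis (by
      intro y
      have h1 := hmin y
      have h2 : (fun x' : RicS2.S2 => (Matrix.of fun i j =>
          Ric.sliceForm (toOld g) x' y ((EuclideanSpace.basisFun (Fin m) ℝ).toBasis i)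
            ((EuclideanSpace.basisFun (Fin m) ℝ).toBasis j)).det) = fun x => volSq g x y := by
        funext x'
        rw [volSq]
        congr 1
        ext i j
        simp only [Matrix.of_apply, OrthonormalBasis.coe_toBasis, EuclideanSpace.basisFun_apply]
        rfl
      rw [h2]
      exact h1)
  refine ⟨toNew h, kpos_toNew hh, u, fun y v w => ?_⟩
  have h1 := congrArg (fun B => B v w) (hu y)
  exact h1

theorem final2 [CompactSpace N] (hm : 2 ≤ m) (g : RicS2.RiemSN m N) (ho : OrthFactors g)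
    (h₀ : RicS2.RiemN m N) (ρ : RicS2.S2 → N → ℝ)
    (hρ : ∀ x y v w, g.inner x y 0 v 0 w = ρ x y * h₀.form y v w)
    (κ : ℝ) (hκ : κ ≤ 2 * ((m : ℝ) - 1)) (α : RicS2.S2 → ℝ) (β : N → ℝ)
    (hA : ∀ x y, areaSq g x y * ρ x y ^ κ = α x * β y)
    (hR : RicS2.PosRicSN g ∨ RicS2.KPosRicSN m g) :
    ∃ h : RicS2.RiemN m N, RicS2.PosScalN h ∧
      ∃ u : N → ℝ, ∀ y v w, h.form y v w = Real.exp (2 * u y) * h₀.form y v w := by
  have : IsManifold (𝓡 m) 1 N := IsManifold.of_le (n := ∞) (by simp)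
  have hR' : RicS2.KPosRic m g := by
    rcases hR with h | h
    · exact kPos_of_pos h (by omega)
    · exact h
  have hfin : m = Module.finrank ℝ (EuclideanSpace ℝ (Fin m)) := by simp
  have hne : Nonempty RicS2.S2 := by
    refine ⟨⟨EuclideanSpace.single 0 1, by simp⟩⟩
  obtain ⟨h, ⟨u, hu⟩, hh⟩ := SL.main2 (I := 𝓡 2) (J := 𝓡 m) hm hfin
    (EuclideanSpace.basisFun (Fin 2) ℝ).toBasis (toOld g)
    (fun x y u v => ho x y u v) (kpos_toOld hR') (toOld h₀) ρ
    (by
      intro x y
      ext v w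
      exact hρ x y v w) κ hκ α β (by
      intro x y
      rw [← hA x y]
      congr 1
      rw [areaSq, Matrix.det_fin_two]
      simp only [Ric.det2, OrthonormalBasis.coe_toBasis, EuclideanSpace.basisFun_apply,
        Matrix.of_apply]
      have hs : g.inner x y (stdVec 2 1) 0 (stdVec 2 0) 0 =
          g.inner x y (stdVec 2 0) 0 (stdVec 2 1) 0 := g.symm _ _ _
      rw [hs, ← sq]
      rfl)
  refine ⟨toNew h, kpos_toNew hh, u, fun y v w => ?_⟩
  have h1 := congrArg (fun B => B v w) (hu y)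
  exact h1

end Pool.Agent.Helper65.SLS
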